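import Pool.Agent.L0h12.HP.Gen

/-!
# De Rham-Betti classes on tensor powers: from invariance to products
-/

set_option autoImplicit false

open Matrix

namespace Pool.Agent.L0h12.HP

variable {r N : ℕ} {n : Fin N → ℕ}

theorem twoPiI_ne : twoPiI ≠ 0 := by
  have h2 : (Real.pi : ℂ) ≠ 0 := by exact_mod_cast Real.pi_ne_zero
  exact mul_ne_zero (mul_ne_zero two_ne_zero h2) Complex.I_ne_zero

/-- one pattern -/
theorem pat {K : Subfield ℂ} {C₀ : Matrix (Fin r) (Fin r) ℂ} {w s : Fin N → ℤ}
    {X : ∀ i, Matrix (Fin (n i)) (Fin (n i)) ℂ} {J : ∀ i, Matrix (Fin (n i)) (Fin (n i)) K}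
    {E : ∀ i, Matrix (Fin (n i)) (Fin (n i)) ℚ} (hs : ∀ i, s i = 1 ∨ s i = -1)
    (hE : ∀ i, (E i)ᵀ = (s i : ℚ) • E i) (hd : ∀ i, IsUnit (E i))
    (hX : ∀ i, IsUnit (X i))
    (hXJ : ∀ i, X i * (J i).map (algebraMap K ℂ) * (X i)ᵀ = twoPiI ^ w i • (E i).map (Rat.cast : ℚ → ℂ))
    {S A : Type} [Fintype S] [DecidableEq S] [Fintype A] [DecidableEq A] (c : S → Fin N)
    (hc : ∀ i, s i = 1 → (Finset.univ.filter fun j => c j = i).card < n i) (v : ℤ)
    (φ : (S ⊕ A → Index r n) → ℚ) (hφ : IsDRB K (total C₀ X) v φ)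
    (hsup : ∀ I, ¬ ((∀ s, ∃ p : Cx n, I (Sum.inl s) = Sum.inr p ∧ p.1 = c s) ∧ ∀ a, ∃ q, I (Sum.inr a) = Sum.inl q) →
      φ I = 0) (hinv : Invt E φ) :
    φ ∈ Submodule.span ℚ {g | IsProduct K C₀ w E v g} := by
  classical
  have hsp : Pool.Agent.TH125.Nod.Sup (Sigma.fst : Cx n → Fin N) c
      (fun (I : S → Cx n) (j : A → Fin r) => φ (jn I j)) := by
    intro I hI
    funext j
    refine hsup _ fun h => hI fun s => ?_
    obtain ⟨p, h1, h2⟩ := h.1 s
    rw [show I s = p from Sum.inr_injective h1]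
    exact h2
  have hG := fft1 hs hE hd c hc _ hsp (inv_of hs hE hd hinv)
  obtain ⟨κ, a, -, hspan, hli⟩ := exists_linearIndependent' ℚ (gm (S := S) (blockDiagonal' E) c)
  have hfin : Finite κ := hli.finite
  have := Fintype.ofFinite κ
  have h1 : ∀ j : A → Fin r, ∃ z : κ → ℚ, ∑ k, z k • (gm (blockDiagonal' E) c ∘ a) k = fun I => φ (jn I j) := by
    intro j
    have h2 := mem_gm hG j
    rw [← hspan] at h2
    exact (Submodule.mem_span_range_iff_exists_fun ℚ).1 h2
  choose z hz using h1
  obtain ⟨ξ, hξ⟩ := hφ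
  have hXu : IsUnit (blockDiagonal' X) := by
    rw [isUnit_iff_exists_inv]
    refine ⟨blockDiagonal' fun i => (X i)⁻¹, ?_⟩
    rw [← blockDiagonal'_mul, ← blockDiagonal'_one]
    congr 1
    funext i
    exact mul_nonsing_inv _ ((isUnit_iff_isUnit_det _).1 (hX i))
  obtain ⟨Z, hZ⟩ := isUnit_iff_exists_inv'.1 hXu
  have hcore := core (K := K) twoPiI_ne v (fun k => ∑ l, w (c ((a k).2.1 (l, 0))))
    (Xm := fun I I' : S → Cx n => ∏ s, blockDiagonal' X (I s) (I' s)) (by
      intro y hy I
      have e1 : ten (blockDiagonal' X) y = fun _ => 0 := funext hy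
      have e2 := congrFun (ten_mul Z (blockDiagonal' X) y) I
      rw [hZ, ten_one, e1] at e2
      rw [e2]
      unfold ten
      exact Finset.sum_eq_zero fun _ _ => mul_zero _)
    (fun j j' : A → Fin r => ∏ a, C₀ (j a) (j' a)) hli (fun k => gm (blockDiagonal' J) c (a k))
    (fun k I => sum_eta twoPiI_ne hXJ c (a k) I) (fun I j => φ (jn I j)) (fun k j => z j k) (by
      intro I j
      have e1 := congrFun (hz j) I
      rw [Finset.sum_apply] at e1
      rw [← e1]
      exact Finset.sum_congr rfl fun k _ => mul_comm _ _)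
    (fun I j => ξ (jn I j)) (by
      intro I j
      rw [hξ, sum_jn])
  have hsum : φ = ∑ k, fun I : S ⊕ A → Index r n =>
      (∏ l, pair E (c ((a k).2.1 (l, 0))) (I (Sum.inl ((a k).2.1 (l, 0)))) (I (Sum.inl ((a k).2.1 (l, 1))))) *
        extend (fun j => z j k) fun x => I (Sum.inr x) := by
    funext I
    rw [Finset.sum_apply]
    by_cases hI : (∀ s, ∃ p : Cx n, I (Sum.inl s) = Sum.inr p ∧ p.1 = c s) ∧ ∀ a, ∃ q, I (Sum.inr a) = Sum.inl q
    · obtain ⟨I₀, j₀, rfl⟩ := exists_jn I (fun s => (hI.1 s).imp fun p hp => hp.1) hI.2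
      have hc : ∀ s, (I₀ s).1 = c s := by
        intro s
        obtain ⟨p, h3, h4⟩ := hI.1 s
        rw [show I₀ s = p from Sum.inr_injective h3]
        exact h4
      have e1 := congrFun (hz j₀) I₀
      rw [Finset.sum_apply] at e1
      rw [← e1]
      refine Finset.sum_congr rfl fun k _ => ?_
      show z j₀ k * gm (blockDiagonal' E) c (a k) I₀ = _
      have e2 : extend (n := n) (fun j => z j k) (fun x => jn I₀ j₀ (Sum.inr x)) = z j₀ k :=
        extend_inl (fun j => z j k) j₀
      rw [e2, gm_pos hc, mul_comm]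
      congr 1
      exact Finset.prod_congr rfl fun l _ => (pair_inr E _ _ _ (hc _)).symm
    · rw [hsup I hI]
      symm
      refine Finset.sum_eq_zero fun k _ => ?_
      by_contra h
      obtain ⟨h3, h4⟩ := mul_ne_zero_iff.1 h
      rw [Finset.prod_ne_zero_iff] at h3
      refine hI ⟨fun s => ?_, extend_ne h4⟩
      obtain ⟨⟨l, ε⟩, rfl⟩ := (a k).2.1.surjective s
      obtain ⟨p, q, h5, h6, h7, h8⟩ := pair_ne (h3 l (Finset.mem_univ l))
      fin_cases ε
      · exact ⟨p, h5, h7⟩
      · exact ⟨q, h6, h8.trans ((a k).2.2 l)⟩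
  rw [hsum]
  refine Submodule.sum_mem _ fun k _ => Submodule.subset_span ?_
  refine ⟨(a k).1, A, inferInstance, inferInstance, Equiv.sumCongr (a k).2.1 (Equiv.refl A),
    fun l => c ((a k).2.1 (l, 0)), fun j => z j k, hcore k, fun I => rfl⟩

section transport

variable {B P P' : Type} [Fintype B] [Fintype P] [DecidableEq P] [Fintype P'] [DecidableEq P']

theorem isDRB_comp {K : Subfield ℂ} {c : Matrix B B ℂ} {v : ℤ} {φ : (P → B) → ℚ} (h : IsDRB K c v φ)
    (e : P' ≃ P) : IsDRB K c v fun I : P' → B => φ (I ∘ e.symm) := by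
  classical
  obtain ⟨ξ, hξ⟩ := h
  refine ⟨fun J => ξ (J ∘ e.symm), fun I => ?_⟩
  rw [hξ]
  refine Fintype.sum_equiv (e.arrowCongr (Equiv.refl B)).symm _ _ fun J => ?_
  have h1 : ((e.arrowCongr (Equiv.refl B)).symm J) ∘ e.symm = J := by
    funext l
    simp [Equiv.arrowCongr]
  show _ = (∏ l, c (I l) ((e.arrowCongr (Equiv.refl B)).symm J l)) *
    (ξ (((e.arrowCongr (Equiv.refl B)).symm J) ∘ e.symm) : ℂ)
  rw [h1, ← e.prod_comp]
  congr 1
  refine Finset.prod_congr rfl fun l _ => ?_
  simp [Equiv.arrowCongr]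

end transport

/-- products, after a change of the variables -/
theorem isProduct_comp {K : Subfield ℂ} {C₀ : Matrix (Fin r) (Fin r) ℂ} {w : Fin N → ℤ}
    {E : ∀ i, Matrix (Fin (n i)) (Fin (n i)) ℚ} {P P' : Type} [Fintype P] [DecidableEq P] [Fintype P']
    [DecidableEq P'] {v : ℤ} {φ : (P' → Index r n) → ℚ} (h : IsProduct K C₀ w E v φ) (e : P' ≃ P) :
    IsProduct K C₀ w E v fun I : P → Index r n => φ (I ∘ e) := by
  obtain ⟨m, A, hA1, hA2, e', t, ψ, h1, h2⟩ := h
  exact ⟨m, A, hA1, hA2, e'.trans e, t, ψ, h1, fun I => h2 _⟩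

/-- the colour -/
def col : Index r n → Option (Fin N)
  | Sum.inl _ => none
  | Sum.inr p => some p.1

theorem total_col {C₀ : Matrix (Fin r) (Fin r) ℂ} {X : ∀ i, Matrix (Fin (n i)) (Fin (n i)) ℂ}
    {x y : Index r n} (h : col x ≠ col y) : total C₀ X x y = 0 := by
  rcases x with x | p
  · rcases y with y | q
    · exact absurd rfl h
    · rfl
  · rcases y with y | q
    · rfl
    · exact bd_apply_of_ne X fun h' => h (congrArg some h')

open Classical in
/-- the part of one pattern -/
noncomputable def part {P R : Type} [Zero R] (τ : P → Option (Fin N)) (φ : (P → Index r n) → R) :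
    (P → Index r n) → R :=
  fun I => if (fun l => col (I l)) = τ then φ I else 0

theorem isDRB_part {K : Subfield ℂ} {C₀ : Matrix (Fin r) (Fin r) ℂ} {X : ∀ i, Matrix (Fin (n i)) (Fin (n i)) ℂ}
    {P : Type} [Fintype P] [DecidableEq P] {v : ℤ} {φ : (P → Index r n) → ℚ}
    (h : IsDRB K (total C₀ X) v φ) (τ : P → Option (Fin N)) : IsDRB K (total C₀ X) v (part τ φ) := by
  classical
  obtain ⟨ξ, hξ⟩ := h
  refine ⟨part τ ξ, fun I => ?_⟩
  by_cases hI : (fun l => col (I l)) = τ
  · have h1 : part τ φ I = φ I := by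
      unfold part
      exact if_pos hI
    rw [h1, hξ]
    refine Finset.sum_congr rfl fun J _ => ?_
    by_cases hJ : (fun l => col (J l)) = τ
    · have h2 : part τ ξ J = ξ J := by
        unfold part
        exact if_pos hJ
      rw [h2]
    · have h3 : ∃ l, col (I l) ≠ col (J l) := by
        by_contra hcon
        push Not at hcon
        exact hJ (by rw [← hI]; exact (funext hcon).symm)
      obtain ⟨l, hl⟩ := h3
      have h4 : ∏ l, total C₀ X (I l) (J l) = 0 := Finset.prod_eq_zero (Finset.mem_univ l) (total_col hl)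
      rw [h4, zero_mul, zero_mul]
  · have h1 : part τ φ I = 0 := by
      unfold part
      exact if_neg hI
    rw [h1, Rat.cast_zero, mul_zero]
    symm
    refine Finset.sum_eq_zero fun J _ => ?_
    by_cases hJ : (fun l => col (J l)) = τ
    · have h3 : ∃ l, col (I l) ≠ col (J l) := by
        by_contra hcon
        push Not at hcon
        exact hI (by rw [← hJ]; exact funext hcon)
      obtain ⟨l, hl⟩ := h3
      have h4 : ∏ l, total C₀ X (I l) (J l) = 0 := Finset.prod_eq_zero (Finset.mem_univ l) (total_col hl)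
      rw [h4, zero_mul]
    · have h2 : part τ ξ J = 0 := by
        unfold part
        exact if_neg hJ
      rw [h2, ZeroMemClass.coe_zero, mul_zero]

theorem sum_part {P : Type} [Fintype P] [DecidableEq P] (φ : (P → Index r n) → ℚ) :
    φ = ∑ τ : P → Option (Fin N), part τ φ := by
  classical
  funext I
  rw [Finset.sum_apply]
  rw [Finset.sum_eq_single (fun l => col (I l))]
  · unfold part
    exact (if_pos rfl).symm
  · intro τ _ hτ
    unfold part
    exact if_neg (Ne.symm hτ)
  · intro h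
    exact absurd (Finset.mem_univ _) h

/-- **From invariance to products.** -/
theorem allSplit_of_inv {K : Subfield ℂ} {C₀ : Matrix (Fin r) (Fin r) ℂ} {w s : Fin N → ℤ}
    {X : ∀ i, Matrix (Fin (n i)) (Fin (n i)) ℂ} {J : ∀ i, Matrix (Fin (n i)) (Fin (n i)) K}
    {E : ∀ i, Matrix (Fin (n i)) (Fin (n i)) ℚ} (hs : ∀ i, s i = 1 ∨ s i = -1)
    (hE : ∀ i, (E i)ᵀ = (s i : ℚ) • E i) (hd : ∀ i, IsUnit (E i))
    (hX : ∀ i, IsUnit (X i))
    (hXJ : ∀ i, X i * (J i).map (algebraMap K ℂ) * (X i)ᵀ = twoPiI ^ w i • (E i).map (Rat.cast : ℚ → ℂ))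
    (hinv : ∀ (P : Type) [Fintype P] [DecidableEq P] (v : ℤ) (φ : (P → Index r n) → ℚ),
      IsDRB K (total C₀ X) v φ → Invt E φ) : AllSplit K C₀ X w E := by
  intro P _ _ v φ hφ hsmall
  classical
  rw [sum_part φ]
  refine Submodule.sum_mem _ fun τ _ => ?_
  by_cases hz : part τ φ = 0
  · rw [hz]
    exact Submodule.zero_mem _
  obtain ⟨I₀, hI₀⟩ := Function.ne_iff.1 hz
  have hI₁ : (fun l => col (I₀ l)) = τ ∧ φ I₀ ≠ 0 := by
    unfold part at hI₀
    by_cases h : (fun l => col (I₀ l)) = τ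
    · rw [if_pos h] at hI₀
      exact ⟨h, hI₀⟩
    · rw [if_neg h] at hI₀
      exact absurd rfl hI₀
  have hτ := isDRB_part hφ τ
  -- the variables of the two kinds
  set e : {l // (τ l).isSome = true} ⊕ {l // ¬ (τ l).isSome = true} ≃ P :=
    Equiv.sumCompl (fun l => (τ l).isSome = true) with he
  have h1 := isDRB_comp hτ e
  have hcount : ∀ i, s i = 1 → (Finset.univ.filter fun x : {l // (τ l).isSome = true} => (τ x.1).get x.2 = i).card <
      n i := by
    intro i hi
    have h3 : (E i)ᵀ = E i := by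
      rw [hE i, hi]
      simp
    refine lt_of_le_of_lt ?_ (hsmall I₀ hI₁.2 i h3)
    rw [Nat.card_eq_fintype_card, Fintype.card_subtype]
    refine Finset.card_le_card_of_injOn (fun x => x.1) ?_ ?_
    · intro x hx
      have h4 : (τ x.1).get x.2 = i := (Finset.mem_filter.1 hx).2
      have h5 : col (I₀ x.1) = τ x.1 := congrFun hI₁.1 x.1
      refine Finset.mem_coe.2 (Finset.mem_filter.2 ⟨Finset.mem_univ _, ?_⟩)
      rcases hx' : I₀ x.1 with y | p
      · rw [hx'] at h5
        have h6 : (τ x.1).isSome = true := x.2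
        rw [← h5] at h6
        exact absurd h6 (by simp [col])
      · rw [hx'] at h5
        have h6 : (τ x.1).get x.2 = p.1 := Option.get_of_eq_some _ h5.symm
        have h7 : p.1 = i := h6.symm.trans h4
        subst h7
        exact ⟨p.2, rfl⟩
    · intro x _ y _ h
      exact Subtype.ext h
  have h2 := pat (K := K) (C₀ := C₀) (w := w) hs hE hd hX hXJ
    (fun x : {l // (τ l).isSome = true} => (τ x.1).get x.2) hcount v _ h1 ?_ (hinv _ v _ h1)
  · -- transport back
    have h3 : ∀ g ∈ Submodule.span ℚ {g : ({l // (τ l).isSome = true} ⊕ {l // ¬ (τ l).isSome = true} →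
        Index r n) → ℚ | IsProduct K C₀ w E v g}, (fun I : P → Index r n => g (I ∘ e)) ∈
        Submodule.span ℚ {g | IsProduct K C₀ w E v g} := by
      intro g hg
      induction hg using Submodule.span_induction with
      | mem x hx => exact Submodule.subset_span (isProduct_comp hx e)
      | zero => exact Submodule.zero_mem _
      | add x y _ _ hx hy => exact Submodule.add_mem _ hx hy
      | smul a x _ hx => exact Submodule.smul_mem _ a hx
    have h4 := h3 _ h2
    have h5 : (fun I : P → Index r n => part τ φ ((I ∘ e) ∘ e.symm)) = part τ φ := by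
      funext I
      congr 1
      funext l
      simp
    rw [← h5]
    exact h4
  · intro I hI
    show part τ φ (I ∘ e.symm) = 0
    unfold part
    refine if_neg fun h => hI ⟨fun x => ?_, fun a => ?_⟩
    · have h3 : col ((I ∘ e.symm) x.1) = τ x.1 := congrFun h x.1
      have h4 : (I ∘ e.symm) x.1 = I (Sum.inl x) := by
        show I (e.symm x.1) = _
        congr 1
        rw [Equiv.symm_apply_eq, he]
        rfl
      rw [h4] at h3
      rcases hx : I (Sum.inl x) with y | p
      · rw [hx] at h3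
        have h5 : (τ x.1).isSome = true := x.2
        rw [← h3] at h5
        exact absurd h5 (by simp [col])
      · refine ⟨p, rfl, ?_⟩
        rw [hx] at h3
        exact (Option.get_of_eq_some _ h3.symm).symm
    · have h3 : col ((I ∘ e.symm) a.1) = τ a.1 := congrFun h a.1
      have h4 : (I ∘ e.symm) a.1 = I (Sum.inr a) := by
        show I (e.symm a.1) = _
        congr 1
        rw [Equiv.symm_apply_eq, he]
        rfl
      rw [h4] at h3
      rcases hx : I (Sum.inr a) with y | p
      · exact ⟨y, rfl⟩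
      · rw [hx] at h3
        have h5 : ¬ (τ a.1).isSome = true := a.2
        rw [← h3] at h5
        exact absurd rfl h5

end Pool.Agent.L0h12.HP
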