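import Mathlib

/-!
# De Rham-Betti classes on tensor powers: definitions
-/

set_option autoImplicit false

open Matrix

namespace Pool.Agent.L0h12.HP

/-- the number `2 π i` -/
noncomputable def twoPiI : ℂ := 2 * Real.pi * Complex.I

/-- Let `c` be the matrix of the periods of an object `M` over `K` (rows: a basis of the rational Betti
cohomology, columns: a `K`-basis of the algebraic de Rham cohomology). The tensor `φ` with rational
coordinates, in the tensor power `M ^ {⊗ P}`, is a de Rham-Betti class of twist `w` over `K`: the tensor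
`(2 π i) ^ w φ` has coordinates in `K` with respect to the de Rham basis. -/
def IsDRB (K : Subfield ℂ) {B P : Type} [Fintype B] [Fintype P] [DecidableEq P]
    (c : Matrix B B ℂ) (w : ℤ) (φ : (P → B) → ℚ) : Prop :=
  ∃ ξ : (P → B) → K, ∀ I, twoPiI ^ w * (φ I : ℂ) = ∑ J, (∏ l, c (I l) (J l)) * (ξ J : ℂ)

/-- the index set of the basis of `M_0 ⊕ ⨁ M_i` -/
abbrev Index (r : ℕ) {N : ℕ} (n : Fin N → ℕ) : Type := Fin r ⊕ (Σ i : Fin N, Fin (n i))

/-- the period matrix of `M_0 ⊕ ⨁ M_i` -/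
def total {r N : ℕ} {n : Fin N → ℕ} (C₀ : Matrix (Fin r) (Fin r) ℂ)
    (X : ∀ i, Matrix (Fin (n i)) (Fin (n i)) ℂ) : Matrix (Index r n) (Index r n) ℂ :=
  Matrix.fromBlocks C₀ 0 0 (Matrix.blockDiagonal' X)

/-- the form `E i`, extended by zero to `M_0 ⊕ ⨁ M_i` -/
def pair {r N : ℕ} {n : Fin N → ℕ} (E : ∀ i, Matrix (Fin (n i)) (Fin (n i)) ℚ) (i : Fin N) :
    Index r n → Index r n → ℚ
  | Sum.inr p, Sum.inr q => if p.1 = i then Matrix.blockDiagonal' E p q else 0
  | _, _ => 0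

/-- a tensor on `M_0`, extended by zero -/
def extend {r N : ℕ} {n : Fin N → ℕ} {A : Type} [Fintype A] [DecidableEq A]
    (ψ : (A → Fin r) → ℚ) (J : A → Index r n) : ℚ :=
  ∑ j : A → Fin r, if (∀ a, J a = Sum.inl (j a)) then ψ j else 0

/-- `φ` is the product of the forms `E i` in `m` disjoint pairs of variables, and of a de Rham-Betti
class `ψ` of a tensor power of `M_0` in the other variables; the form `E i` has the twist `w i`, so
that the sum of the twists is `v`. -/
def IsProduct (K : Subfield ℂ) {r N : ℕ} {n : Fin N → ℕ} (C₀ : Matrix (Fin r) (Fin r) ℂ)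
    (w : Fin N → ℤ) (E : ∀ i, Matrix (Fin (n i)) (Fin (n i)) ℚ) {P : Type} [Fintype P]
    [DecidableEq P] (v : ℤ) (φ : (P → Index r n) → ℚ) : Prop :=
  ∃ (m : ℕ) (A : Type) (_ : Fintype A) (_ : DecidableEq A) (e : (Fin m × Fin 2) ⊕ A ≃ P)
    (t : Fin m → Fin N) (ψ : (A → Fin r) → ℚ), IsDRB K C₀ (v - ∑ l, w (t l)) ψ ∧
      ∀ I, φ I = (∏ l, pair E (t l) (I (e (Sum.inl (l, 0)))) (I (e (Sum.inl (l, 1))))) *
        extend ψ fun a => I (e (Sum.inr a))

/-- for the `i` such that `E i` is symmetric, the tensor `φ` has degree less than the rank of `M_i` in the variables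
from `M_i` (no condition if the `E i` are alternating) -/
def SmallDegree {r N : ℕ} {n : Fin N → ℕ} (E : ∀ i, Matrix (Fin (n i)) (Fin (n i)) ℚ) {P : Type}
    (φ : (P → Index r n) → ℚ) : Prop :=
  ∀ I, φ I ≠ 0 → ∀ i, (E i)ᵀ = E i → Nat.card {l : P // ∃ a, I l = Sum.inr ⟨i, a⟩} < n i

/-- all de Rham-Betti classes of all tensor powers of `M_0 ⊕ ⨁ M_i` over `K` are rational linear
combinations of products of the forms `E i` and of de Rham-Betti classes of tensor powers of `M_0` -/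
def AllSplit (K : Subfield ℂ) {r N : ℕ} {n : Fin N → ℕ} (C₀ : Matrix (Fin r) (Fin r) ℂ)
    (X : ∀ i, Matrix (Fin (n i)) (Fin (n i)) ℂ) (w : Fin N → ℤ)
    (E : ∀ i, Matrix (Fin (n i)) (Fin (n i)) ℚ) : Prop :=
  ∀ (P : Type) [Fintype P] [DecidableEq P] (v : ℤ) (φ : (P → Index r n) → ℚ),
    IsDRB K (total C₀ X) v φ → SmallDegree E φ → φ ∈ Submodule.span ℚ {g | IsProduct K C₀ w E v g}

end Pool.Agent.L0h12.HP
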