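import Pool.Agent.L0h12.HP.Defs

/-!
# Families of G-functions, period matrices with big monodromy: definitions
-/

set_option autoImplicit false

open PowerSeries Filter Matrix

namespace Pool.Agent.L0h12.HP

/-- an integer polynomial as a power series with rational coefficients -/
noncomputable def toQ (P : Polynomial ℤ) : PowerSeries ℚ :=
  ((P.map (Int.castRingHom ℚ) : Polynomial ℚ) : PowerSeries ℚ)

/-- the power series `P(u^e)` -/
noncomputable def atPow (e : ℕ) (P : Polynomial ℤ) : PowerSeries ℂ :=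
  ((Polynomial.expand ℂ e (P.map (Int.castRingHom ℂ)) : Polynomial ℂ) : PowerSeries ℂ)

/-- the matrices `G_s` over `ℤ[x]` with `T^s y^(s) = G_s y` for all solutions `y` of `T y' = A y` -/
noncomputable def iter {ρ : ℕ} (T : Polynomial ℤ) (A : Fin ρ → Fin ρ → Polynomial ℤ) :
    ℕ → Fin ρ → Fin ρ → Polynomial ℤ
  | 0 => fun i j => if i = j then 1 else 0
  | s + 1 => fun i j => T * Polynomial.derivative (iter T A s i j) + ∑ l, iter T A s i l * A l j -
      (s : Polynomial ℤ) * (Polynomial.derivative T * iter T A s i j)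

/-- The system `T y' = A y` has a fundamental matrix of solutions of the form `u^(-M) ∑_m Φ_m(u) (log u)^m` with
`u^e = x` and convergent power series `Φ_m`: the point `0` is regular or a regular singularity with rational
exponents. -/
def QuasiUnipotent {ρ : ℕ} (T : Polynomial ℤ) (A : Fin ρ → Fin ρ → Polynomial ℤ) : Prop :=
  ∃ (e M : ℕ) (K : ℝ) (Φ : Matrix (Fin ρ) (Fin ρ) (Polynomial (PowerSeries ℂ))), 1 ≤ e ∧ Φ.det ≠ 0 ∧
    (∀ i j n m, ‖coeff m ((Φ i j).coeff n)‖ ≤ K ^ (m + 1)) ∧
    ∀ i j n, atPow e T * (X * PowerSeries.derivative ℂ ((Φ i j).coeff n) +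
        ((n : PowerSeries ℂ) + 1) * (Φ i j).coeff (n + 1) - (M : PowerSeries ℂ) * (Φ i j).coeff n) =
      (e : PowerSeries ℂ) * X ^ e * ∑ l, atPow e (A i l) * (Φ l j).coeff n

/-- `h_1, ..., h_ρ` are G-functions with rational coefficients which solve the differential system `T y' = A y`, with
the conditions of Siegel and Galochkin, and `0` is a regular point or a regular singularity with rational exponents of
the system. -/
structure GFamily {ρ : ℕ} (T : Polynomial ℤ) (A : Fin ρ → Fin ρ → Polynomial ℤ) (h : Fin ρ → PowerSeries ℚ) :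
    Prop where
  /-- the denominator is not zero -/
  T_ne : T ≠ 0
  /-- the differential equations -/
  ode : ∀ i, toQ T * PowerSeries.derivative ℚ (h i) = ∑ j, toQ (A i j) * h j
  /-- the coefficients have geometric growth -/
  size : ∃ C : ℝ, ∀ i m, |((coeff m (h i) : ℚ) : ℝ)| ≤ C ^ (m + 1)
  /-- the common denominators of the coefficients have geometric growth -/
  den : ∃ C : ℝ, ∀ m : ℕ, ∃ d : ℕ, 0 < d ∧ (d : ℝ) ≤ C ^ (m + 1) ∧ ∀ i, ∀ j ≤ m, ∃ a : ℤ, (d : ℚ) * coeff j (h i) = a
  /-- Galochkin's condition: the common denominators of the matrices `G_s / s!` have geometric growth -/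
  galochkin : ∃ C : ℝ, ∀ m : ℕ, ∃ d : ℕ, 0 < d ∧ (d : ℝ) ≤ C ^ (m + 1) ∧ ∀ s ≤ m, ∀ i j,
    ∃ H : Polynomial ℤ, (d : Polynomial ℤ) * iter T A s i j = (s.factorial : Polynomial ℤ) * H
  /-- the local exponents at `0` are rational and the singularity is regular -/
  regular : QuasiUnipotent T A

/-- The period matrix of the fibre at `x = 1 / s` (rows: Betti basis, columns: de Rham basis): the entries are the
polynomials `P a b` in `log s` and in the `h_l(1 / s)`. -/
noncomputable def perMat {ρ n : ℕ} (h : Fin ρ → PowerSeries ℚ)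
    (P : Fin n → Fin n → MvPolynomial (Option (Fin ρ)) ℂ) (s : ℝ) : Matrix (Fin n) (Fin n) ℂ :=
  Matrix.of fun a b => MvPolynomial.aeval (fun o : Option (Fin ρ) => o.elim ((Real.log s : ℝ) : ℂ)
    fun l => ((∑' m : ℕ, ((coeff m (h l) : ℚ) : ℝ) * (1 / s) ^ m : ℝ) : ℂ)) (P a b)

/-- the value at `x = 1 / s` and at the matrix `Z` of a polynomial in the entries of a matrix over `ℂ[x]` -/
noncomputable def relAt {n : ℕ} (R : MvPolynomial (Fin n × Fin n) (Polynomial ℂ)) (s : ℝ)
    (Z : Matrix (Fin n) (Fin n) ℂ) : ℂ :=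
  MvPolynomial.eval₂ (Polynomial.evalRingHom (1 / (s : ℂ))) (fun v => Z v.1 v.2) R

/-- `g P(x)` satisfies all polynomial relations over `ℂ[x]` which the period matrix `P(x)` satisfies. -/
def Preserves {ρ n : ℕ} (h : Fin ρ → PowerSeries ℚ) (P : Fin n → Fin n → MvPolynomial (Option (Fin ρ)) ℂ)
    (g : Matrix (Fin n) (Fin n) ℂ) : Prop :=
  ∀ R : MvPolynomial (Fin n × Fin n) (Polynomial ℂ), (∀ᶠ s : ℝ in atTop, relAt R s (perMat h P s) = 0) →
    ∀ᶠ s : ℝ in atTop, relAt R s (g * perMat h P s) = 0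

/-- `E` is a nondegenerate form, alternating or symmetric of rank different from `2`, and the family has big monodromy:
all isometries of determinant `1` of `E` preserve the polynomial relations of the period matrix, that is they are in its
differential Galois group (the Zariski closure of the monodromy group). -/
def BigMonodromy {ρ n : ℕ} (h : Fin ρ → PowerSeries ℚ) (P : Fin n → Fin n → MvPolynomial (Option (Fin ρ)) ℂ)
    (E : Matrix (Fin n) (Fin n) ℚ) : Prop :=
  IsUnit E ∧ (Eᵀ = -E ∨ (Eᵀ = E ∧ n ≠ 2)) ∧ ∀ g : Matrix (Fin n) (Fin n) ℂ, g.det = 1 →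
    g * E.map (Rat.cast : ℚ → ℂ) * gᵀ = E.map (Rat.cast : ℚ → ℂ) → Preserves h P g

/-- The conclusion for one tuple of fibres; `Z i` is the period matrix of the fibre `M_i` of the `i`-th family: for all
number fields `K` of degree at most `D`, if the forms `E i` are de Rham-Betti classes of the `M_i ⊗ M_i` of twists `w i`
over `K`, then all de Rham-Betti classes over `K` of all tensor powers of `M_0 ⊕ ⨁ M_i` (of degree less than the rank of
`M_i` in the variables from `M_i` if `E i` is symmetric) are combinations of products of the forms `E i` and of de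
Rham-Betti classes of tensor powers of `M_0`. -/
def Good (D : ℕ) {r k : ℕ} {n ρ : Fin k → ℕ} (C₀ : Matrix (Fin r) (Fin r) ℂ) (h : ∀ i, Fin (ρ i) → PowerSeries ℚ)
    (P : ∀ i, Fin (n i) → Fin (n i) → MvPolynomial (Option (Fin (ρ i))) ℂ)
    (Z : ∀ i, Matrix (Fin (n i)) (Fin (n i)) ℂ) : Prop :=
  ∀ K : Subfield ℂ, FiniteDimensional ℚ K → Module.finrank ℚ K ≤ D →
    ∀ (E : ∀ i, Matrix (Fin (n i)) (Fin (n i)) ℚ) (w : Fin k → ℤ), (∀ i, BigMonodromy (h i) (P i) (E i)) →
      (∀ i, IsDRB K (Z i) (w i) fun I : Fin 2 → Fin (n i) => E i (I 0) (I 1)) → AllSplit K C₀ Z w E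

end Pool.Agent.L0h12.HP
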