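import Pool.Agent.L0h12.HP.Pat

/-!
# De Rham-Betti classes on tensor powers: the products of forms
-/

set_option autoImplicit false

open Matrix

namespace Pool.Agent.L0h12.HP

variable {r N : ℕ} {n : Fin N → ℕ}

/-- the pairings of variables of equal colours -/
def Mt {S : Type} (c : S → Fin N) : Type :=
  Σ m : ℕ, {e : Fin m × Fin 2 ≃ S // ∀ l, c (e (l, 0)) = c (e (l, 1))}

/-- the product of the forms -/
noncomputable def gm {F : Type} [Field F] {S : Type} [Fintype S] (Q : Matrix (Cx n) (Cx n) F) (c : S → Fin N)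
    (x : Mt c) : (S → Cx n) → F := fun I => by
  classical
  exact if ∀ s, (I s).1 = c s then ∏ l, Q (I (x.2.1 (l, 0))) (I (x.2.1 (l, 1))) else 0

theorem gm_pos {F : Type} [Field F] {S : Type} [Fintype S] {Q : Matrix (Cx n) (Cx n) F} {c : S → Fin N}
    {x : Mt c} {I : S → Cx n} (h : ∀ s, (I s).1 = c s) :
    gm Q c x I = ∏ l, Q (I (x.2.1 (l, 0))) (I (x.2.1 (l, 1))) := by
  unfold gm
  exact if_pos h

theorem gm_neg {F : Type} [Field F] {S : Type} [Fintype S] {Q : Matrix (Cx n) (Cx n) F} {c : S → Fin N}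
    {x : Mt c} {I : S → Cx n} (h : ¬ ∀ s, (I s).1 = c s) : gm Q c x I = 0 := by
  unfold gm
  exact if_neg h

section

variable {S A : Type} [Fintype S] [DecidableEq S]

theorem mem_gm {E : ∀ i, Matrix (Fin (n i)) (Fin (n i)) ℚ} {c : S → Fin N}
    {f : (S → Cx n) → ((A → Fin r) → ℚ)}
    (hf : f ∈ Pool.Agent.TH125.Nod.Gen (Sigma.fst : Cx n → Fin N) (blockDiagonal' E) c)
    (j : A → Fin r) : (fun I => f I j) ∈ Submodule.span ℚ (Set.range (gm (blockDiagonal' E) c)) := by
  unfold Pool.Agent.TH125.Nod.Gen at hf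
  induction hf using Submodule.span_induction with
  | mem x hx =>
    obtain ⟨m, e, w, rfl⟩ := hx
    by_cases hm : ∀ l, c (e (l, 0)) = c (e (l, 1))
    · have h1 : (fun I => Pool.Agent.TH125.Nod.gen (Sigma.fst : Cx n → Fin N) (blockDiagonal' E) c e w I j) =
          w j • gm (blockDiagonal' E) c ⟨m, e, hm⟩ := by
        funext I
        rw [Pi.smul_apply]
        unfold Pool.Agent.TH125.Nod.gen
        by_cases hI : ∀ s, (I s).1 = c s
        · rw [if_pos hI, gm_pos hI, Pi.smul_apply, smul_eq_mul, smul_eq_mul, mul_comm]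
        · rw [if_neg hI, gm_neg hI, Pi.zero_apply, smul_zero]
      rw [h1]
      exact Submodule.smul_mem _ _ (Submodule.subset_span ⟨_, rfl⟩)
    · have h1 : (fun I => Pool.Agent.TH125.Nod.gen (Sigma.fst : Cx n → Fin N) (blockDiagonal' E) c e w I j) = 0 := by
        funext I
        unfold Pool.Agent.TH125.Nod.gen
        by_cases hI : ∀ s, (I s).1 = c s
        · rw [if_pos hI]
          push Not at hm
          obtain ⟨l, hl⟩ := hm
          rw [Finset.prod_eq_zero (Finset.mem_univ l) (bd_apply_of_ne E (by rw [hI, hI]; exact hl)), zero_smul]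
          rfl
        · rw [if_neg hI]
          rfl
      rw [h1]
      exact Submodule.zero_mem _
  | zero => exact Submodule.zero_mem _
  | add x y _ _ hx hy => exact Submodule.add_mem _ hx hy
  | smul a x _ hx => exact Submodule.smul_mem _ a hx

theorem sum_pairs {C : Type} [Fintype C] {m : ℕ} (e : Fin m × Fin 2 ≃ S) (F : S → C → ℂ)
    (H : Fin m → C → C → ℂ) :
    ∑ I : S → C, (∏ s, F s (I s)) * ∏ l, H l (I (e (l, 0))) (I (e (l, 1))) =
      ∏ l, ∑ p, ∑ q, F (e (l, 0)) p * F (e (l, 1)) q * H l p q := by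
  classical
  have h1 : ∏ l, ∑ p, ∑ q, F (e (l, 0)) p * F (e (l, 1)) q * H l p q =
      ∏ l, ∑ x : C × C, F (e (l, 0)) x.1 * F (e (l, 1)) x.2 * H l x.1 x.2 := by
    refine Finset.prod_congr rfl fun l _ => ?_
    rw [Fintype.sum_prod_type]
  rw [h1, Finset.prod_univ_sum, Fintype.piFinset_univ]
  refine Fintype.sum_bijective (fun (I : S → C) (l : Fin m) => (I (e (l, 0)), I (e (l, 1)))) ⟨?_, ?_⟩ _ _ ?_
  · intro I I' h
    funext s
    obtain ⟨⟨l, ε⟩, rfl⟩ := e.surjective s
    have h2 := congrFun h l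
    have h3 := congrArg Prod.fst h2
    have h4 := congrArg Prod.snd h2
    fin_cases ε
    · exact h3
    · exact h4
  · intro u
    refine ⟨fun s => if (e.symm s).2 = 0 then (u (e.symm s).1).1 else (u (e.symm s).1).2, ?_⟩
    funext l
    simp
  · intro I
    rw [← e.prod_comp, Fintype.prod_prod_type, ← Finset.prod_mul_distrib]
    refine Finset.prod_congr rfl fun l _ => ?_
    rw [Fin.prod_univ_two]

theorem prod_zpow_sum {ι : Type} (T : Finset ι) {μ : ℂ} (hμ : μ ≠ 0) (w : ι → ℤ) :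
    ∏ l ∈ T, μ ^ w l = μ ^ ∑ l ∈ T, w l := by
  classical
  induction T using Finset.induction_on with
  | empty => simp
  | insert a T ha ih => rw [Finset.prod_insert ha, Finset.sum_insert ha, ih, zpow_add₀ hμ]

theorem bd_smul_apply (z : Fin N → ℂ) (M : ∀ i, Matrix (Fin (n i)) (Fin (n i)) ℂ) (p q : Cx n) :
    blockDiagonal' (fun i => z i • M i) p q = z p.1 * blockDiagonal' M p q := by
  obtain ⟨i, a⟩ := p
  obtain ⟨j, b⟩ := q
  by_cases hij : i = j
  · subst hij
    rw [blockDiagonal'_apply_eq, blockDiagonal'_apply_eq, Matrix.smul_apply, smul_eq_mul]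
  · rw [blockDiagonal'_apply_ne _ _ _ hij, blockDiagonal'_apply_ne _ _ _ hij, mul_zero]

/-- the tensors of the products of the forms -/
theorem sum_eta {K : Subfield ℂ} {μ : ℂ} (hμ : μ ≠ 0) {w : Fin N → ℤ}
    {X : ∀ i, Matrix (Fin (n i)) (Fin (n i)) ℂ} {J : ∀ i, Matrix (Fin (n i)) (Fin (n i)) K}
    {E : ∀ i, Matrix (Fin (n i)) (Fin (n i)) ℚ}
    (hXJ : ∀ i, X i * (J i).map (algebraMap K ℂ) * (X i)ᵀ = μ ^ w i • (E i).map (Rat.cast : ℚ → ℂ))
    (c : S → Fin N) (x : Mt c) (I : S → Cx n) :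
    ∑ I', (∏ s, blockDiagonal' X (I s) (I' s)) * ((gm (blockDiagonal' J) c x I' : K) : ℂ) =
      μ ^ (∑ l, w (c (x.2.1 (l, 0)))) * ((gm (blockDiagonal' E) c x I : ℚ) : ℂ) := by
  obtain ⟨m, e, he⟩ := x
  by_cases hI : ∀ s, (I s).1 = c s
  · have h1 : ∀ I' : S → Cx n, (∏ s, blockDiagonal' X (I s) (I' s)) * ((gm (blockDiagonal' J) c ⟨m, e, he⟩ I' : K) : ℂ) =
        (∏ s, blockDiagonal' X (I s) (I' s)) *
          ∏ l, ((blockDiagonal' J (I' (e (l, 0))) (I' (e (l, 1))) : K) : ℂ) := by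
      intro I'
      by_cases hI' : ∀ s, (I' s).1 = c s
      · rw [gm_pos hI']
        push_cast
        rfl
      · push Not at hI'
        obtain ⟨s, hs⟩ := hI'
        have h0 : ∏ s, blockDiagonal' X (I s) (I' s) = 0 :=
          Finset.prod_eq_zero (Finset.mem_univ s) (bd_apply_of_ne X (by rw [hI]; exact hs.symm))
        rw [h0, zero_mul, zero_mul]
    rw [Finset.sum_congr rfl fun I' _ => h1 I', sum_pairs e (fun s p => blockDiagonal' X (I s) p)
      (fun _ p q => ((blockDiagonal' J p q : K) : ℂ)), gm_pos hI]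
    have h2 : ∀ p q : Cx n, ∑ p', ∑ q', blockDiagonal' X p p' * blockDiagonal' X q q' * ((blockDiagonal' J p' q' : K) : ℂ) =
        μ ^ w p.1 * ((blockDiagonal' E p q : ℚ) : ℂ) := by
      intro p q
      have h3 : (blockDiagonal' X * (blockDiagonal' J).map (algebraMap K ℂ) * (blockDiagonal' X)ᵀ) p q =
          μ ^ w p.1 * ((blockDiagonal' E p q : ℚ) : ℂ) := by
        rw [blockDiagonal'_map _ _ (map_zero _), blockDiagonal'_transpose, ← blockDiagonal'_mul, ← blockDiagonal'_mul]
        have h4 : (fun i => X i * (J i).map (algebraMap K ℂ) * (X i)ᵀ) =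
            fun i => μ ^ w i • (E i).map (Rat.cast : ℚ → ℂ) := funext hXJ
        rw [h4, bd_smul_apply, ← blockDiagonal'_map _ _ Rat.cast_zero, map_apply]
      rw [← h3, Matrix.mul_apply]
      simp_rw [Matrix.mul_apply, Finset.sum_mul]
      rw [Finset.sum_comm]
      refine Finset.sum_congr rfl fun q' _ => Finset.sum_congr rfl fun p' _ => ?_
      rw [transpose_apply, map_apply]
      show _ = _ * ((blockDiagonal' J p' q' : K) : ℂ) * _
      ring
    rw [Finset.prod_congr rfl fun l _ => h2 _ _, Finset.prod_mul_distrib, prod_zpow_sum _ hμ]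
    simp only [hI]
    push_cast
    rfl
  · rw [gm_neg hI, Rat.cast_zero, mul_zero]
    refine Finset.sum_eq_zero fun I' _ => ?_
    by_cases hI' : ∀ s, (I' s).1 = c s
    · push Not at hI
      obtain ⟨s, hs⟩ := hI
      have h0 : ∏ s, blockDiagonal' X (I s) (I' s) = 0 :=
        Finset.prod_eq_zero (Finset.mem_univ s) (bd_apply_of_ne X (by rw [hI']; exact hs))
      rw [h0, zero_mul]
    · rw [gm_neg hI', ZeroMemClass.coe_zero, mul_zero]

end

theorem pair_inr (E : ∀ i, Matrix (Fin (n i)) (Fin (n i)) ℚ) (i : Fin N) (p q : Cx n) (h : p.1 = i) :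
    pair (r := r) E i (Sum.inr p) (Sum.inr q) = blockDiagonal' E p q := by
  unfold pair
  exact if_pos h

theorem pair_ne {E : ∀ i, Matrix (Fin (n i)) (Fin (n i)) ℚ} {i : Fin N} {x y : Index r n}
    (h : pair E i x y ≠ 0) : ∃ p q : Cx n, x = Sum.inr p ∧ y = Sum.inr q ∧ p.1 = i ∧ q.1 = i := by
  rcases x with x | p
  · exact absurd rfl h
  · rcases y with y | q
    · exact absurd rfl h
    · unfold pair at h
      dsimp only at h
      by_cases h1 : p.1 = i
      · rw [if_pos h1] at h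
        refine ⟨p, q, rfl, rfl, h1, ?_⟩
        by_contra h2
        exact h (bd_apply_of_ne E (by rw [h1]; exact fun h3 => h2 h3.symm))
      · rw [if_neg h1] at h
        exact absurd rfl h

theorem extend_inl {A : Type} [Fintype A] [DecidableEq A] (ψ : (A → Fin r) → ℚ) (j : A → Fin r) :
    extend (n := n) ψ (fun a => Sum.inl (j a)) = ψ j := by
  unfold extend
  rw [Finset.sum_eq_single j]
  · exact if_pos fun a => rfl
  · intro j' _ hj'
    refine if_neg fun h => hj' ?_
    funext a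
    exact (Sum.inl_injective (h a)).symm
  · intro h
    exact absurd (Finset.mem_univ _) h

theorem extend_ne {A : Type} [Fintype A] [DecidableEq A] {ψ : (A → Fin r) → ℚ} {J : A → Index r n}
    (h : extend ψ J ≠ 0) : ∀ a, ∃ q, J a = Sum.inl q := by
  unfold extend at h
  obtain ⟨j, _, hj⟩ := Finset.exists_ne_zero_of_sum_ne_zero h
  by_cases h1 : ∀ a, J a = Sum.inl (j a)
  · exact fun a => ⟨j a, h1 a⟩
  · rw [if_neg h1] at hj
    exact absurd rfl hj

end Pool.Agent.L0h12.HP
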