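import Mathlib

/-!
# De Rham-Betti classes on tensor powers: the action of matrices on tensors, and a lemma on coefficients
-/

set_option autoImplicit false

open Matrix

namespace Pool.Agent.L0h12.HP

section ten

variable {B P : Type} [Fintype B] [DecidableEq B] [Fintype P] [DecidableEq P]

/-- the action of a matrix on tensors -/
def ten (c : Matrix B B ℂ) (ξ : (P → B) → ℂ) : (P → B) → ℂ := fun I => ∑ J, (∏ l, c (I l) (J l)) * ξ J

theorem prod_sum_mul (c d : Matrix B B ℂ) (I L : P → B) :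
    ∑ J : P → B, (∏ l, c (I l) (J l)) * ∏ l, d (J l) (L l) = ∏ l, (c * d) (I l) (L l) := by
  simp_rw [Matrix.mul_apply, Finset.prod_univ_sum, Fintype.piFinset_univ, Finset.prod_mul_distrib]

theorem ten_mul (c d : Matrix B B ℂ) (ξ : (P → B) → ℂ) : ten (c * d) ξ = ten c (ten d ξ) := by
  funext I
  unfold ten
  simp_rw [← prod_sum_mul, Finset.mul_sum, Finset.sum_mul]
  rw [Finset.sum_comm]
  simp_rw [mul_assoc]

theorem ten_one (ξ : (P → B) → ℂ) : ten (1 : Matrix B B ℂ) ξ = ξ := by
  funext I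
  unfold ten
  rw [Finset.sum_eq_single I]
  · simp
  · intro J _ hJ
    obtain ⟨l, hl⟩ := Function.ne_iff.1 hJ
    have h0 : (1 : Matrix B B ℂ) (I l) (J l) = 0 := Matrix.one_apply_ne (Ne.symm hl)
    rw [Finset.prod_eq_zero (Finset.mem_univ l) h0, zero_mul]
  · intro h
    exact absurd (Finset.mem_univ _) h

theorem ten_smul (c : Matrix B B ℂ) (z : ℂ) (ξ : (P → B) → ℂ) :
    ten c (fun J => z * ξ J) = fun I => z * ten c ξ I := by
  funext I
  unfold ten
  rw [Finset.mul_sum]
  exact Finset.sum_congr rfl fun J _ => by ring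

theorem ten_hasDeriv (Y : Matrix B B ℂ) (ξ : (P → B) → ℂ) (I : P → B) :
    HasDerivAt (fun t : ℂ => ten (1 + t • Y) ξ I)
      (∑ l, ∑ b, Y (I l) b * ξ (Function.update I l b)) 0 := by
  have h1 : ∀ J : P → B, HasDerivAt (fun t : ℂ => (∏ l, (1 + t • Y) (I l) (J l)) * ξ J)
      ((∑ l, (∏ l' ∈ Finset.univ.erase l, (1 : Matrix B B ℂ) (I l') (J l')) * Y (I l) (J l)) * ξ J) 0 := by
    intro J
    have h2 : ∀ l ∈ (Finset.univ : Finset P), HasDerivAt (fun t : ℂ => (1 + t • Y) (I l) (J l)) (Y (I l) (J l)) 0 := by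
      intro l _
      have h3 : (fun t : ℂ => (1 + t • Y) (I l) (J l)) =
          fun t => (1 : Matrix B B ℂ) (I l) (J l) + t * Y (I l) (J l) := by
        funext t
        simp [Matrix.add_apply, Matrix.smul_apply]
      rw [h3]
      simpa using ((hasDerivAt_id (0 : ℂ)).mul_const (Y (I l) (J l))).const_add
        ((1 : Matrix B B ℂ) (I l) (J l))
    have h4 := (HasDerivAt.fun_finsetProd h2).mul_const (ξ J)
    simpa using h4
  have h5 : HasDerivAt (fun t : ℂ => ∑ J : P → B, (∏ l, (1 + t • Y) (I l) (J l)) * ξ J)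
      (∑ J : P → B, (∑ l, (∏ l' ∈ Finset.univ.erase l, (1 : Matrix B B ℂ) (I l') (J l')) *
        Y (I l) (J l)) * ξ J) 0 := HasDerivAt.fun_sum fun J _ => h1 J
  have h7 : (∑ J : P → B, (∑ l, (∏ l' ∈ Finset.univ.erase l, (1 : Matrix B B ℂ) (I l') (J l')) *
        Y (I l) (J l)) * ξ J) = ∑ l, ∑ b, Y (I l) b * ξ (Function.update I l b) := by
    simp_rw [Finset.sum_mul]
    rw [Finset.sum_comm]
    refine Finset.sum_congr rfl fun l _ => ?_
    symm
    refine Finset.sum_of_injOn (fun b : B => Function.update I l b) ?_ (fun _ _ => Finset.mem_coe.2 (Finset.mem_univ _)) ?_ ?_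
    · intro b _ b' _ hb
      exact Function.update_injective I l hb
    · intro J _ hJ
      have h8 : ∃ l', l' ≠ l ∧ I l' ≠ J l' := by
        by_contra hcon
        push Not at hcon
        refine hJ ⟨J l, Finset.mem_coe.2 (Finset.mem_univ _), ?_⟩
        funext l'
        by_cases hl : l' = l
        · subst hl
          simp
        · simp [Function.update_of_ne hl, hcon l' hl]
      obtain ⟨l', h9, h10⟩ := h8
      have h0 : (1 : Matrix B B ℂ) (I l') (J l') = 0 := Matrix.one_apply_ne h10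
      rw [Finset.prod_eq_zero (Finset.mem_erase.2 ⟨h9, Finset.mem_univ l'⟩) h0, zero_mul, zero_mul]
    · intro b _
      have h11 : ∏ l' ∈ Finset.univ.erase l, (1 : Matrix B B ℂ) (I l') (Function.update I l b l') = 1 := by
        refine Finset.prod_eq_one fun l' hl' => ?_
        rw [Function.update_of_ne (Finset.ne_of_mem_erase hl'), Matrix.one_apply_eq]
      rw [h11, one_mul, Function.update_self]
  rw [h7] at h5
  exact h5

theorem ten_deriv {Y : Matrix B B ℂ} {ξ : (P → B) → ℂ}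
    (h : ∀ᶠ t : ℂ in nhds 0, ten (1 + t • Y) ξ = ten (1 - t • Y) ξ)
    (I : P → B) : ∑ l, ∑ b, Y (I l) b * ξ (Function.update I l b) = 0 := by
  have h1 := ten_hasDeriv Y ξ I
  have h2 : HasDerivAt (fun t : ℂ => ten (1 - t • Y) ξ I)
      (-∑ l, ∑ b, Y (I l) b * ξ (Function.update I l b)) 0 := by
    have h3 := ten_hasDeriv (-Y) ξ I
    have h4 : (fun t : ℂ => ten (1 + t • -Y) ξ I) = fun t : ℂ => ten (1 - t • Y) ξ I := by
      funext t
      rw [smul_neg, ← sub_eq_add_neg]
    rw [h4] at h3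
    convert! h3 using 1
    simp only [Matrix.neg_apply, neg_mul, Finset.sum_neg_distrib]
  have h4 : (fun t : ℂ => ten (1 + t • Y) ξ I) =ᶠ[nhds 0] fun t : ℂ => ten (1 - t • Y) ξ I :=
    h.mono fun t ht => congrFun ht I
  have h5 := h1.unique (h2.congr_of_eventuallyEq h4)
  linear_combination (1 / 2 : ℂ) * h5

end ten

theorem exists_dual {F α κ : Type} [Field F] [Fintype α] [DecidableEq α] [Fintype κ] [DecidableEq κ]
    {g : κ → α → F} (hg : LinearIndependent F g) :
    ∃ L : α → κ → F, ∀ k k', ∑ I, g k I * L I k' = if k = k' then 1 else 0 := by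
  rw [linearIndependent_iff_injective_fintypeLinearCombination] at hg
  obtain ⟨L, hL⟩ := LinearMap.exists_leftInverse_of_injective _ (LinearMap.ker_eq_bot.2 hg)
  refine ⟨fun I k => L (Pi.single I 1) k, fun k k' => ?_⟩
  have h2 : L (g k) = Pi.single k 1 := by
    have h3 := LinearMap.congr_fun hL (Pi.single k 1)
    rw [LinearMap.comp_apply, Fintype.linearCombination_apply_single, one_smul] at h3
    exact h3
  have h4 : g k = ∑ I, g k I • Pi.single (M := fun _ => F) I (1 : F) := by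
    funext J
    rw [Finset.sum_apply, Finset.sum_eq_single J]
    · simp
    · intro I _ hI
      simp [Pi.single_apply, hI, Ne.symm hI]
    · intro h
      exact absurd (Finset.mem_univ _) h
  have h5 : L (g k) k' = ∑ I, g k I * L (Pi.single I 1) k' := by
    conv_lhs => rw [h4]
    rw [map_sum, Finset.sum_apply]
    refine Finset.sum_congr rfl fun I _ => ?_
    rw [map_smul, Pi.smul_apply, smul_eq_mul]
  rw [← h5, h2, Pi.single_apply]
  by_cases h : k = k'
  · rw [if_pos h, if_pos h.symm]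
  · rw [if_neg h, if_neg (Ne.symm h)]

/-- Let `g k` be linearly independent de Rham-Betti classes of a structure with the (injective) period matrix `Xm`,
of twists `W k`, and let `f = ∑ g k ⊗ ψ k` be a de Rham-Betti class. Then the `ψ k` are de Rham-Betti classes. -/
theorem core {K : Subfield ℂ} {α β κ : Type} [Fintype α] [DecidableEq α] [Fintype β] [Fintype κ]
    [DecidableEq κ] {μ : ℂ} (hμ : μ ≠ 0) (v : ℤ) (W : κ → ℤ) {Xm : α → α → ℂ}
    (hX : ∀ y : α → ℂ, (∀ I, ∑ I', Xm I I' * y I' = 0) → ∀ I, y I = 0) (Cm : β → β → ℂ)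
    {g : κ → α → ℚ} (hg : LinearIndependent ℚ g) (η : κ → α → K)
    (hη : ∀ k I, ∑ I', Xm I I' * (η k I' : ℂ) = μ ^ W k * (g k I : ℂ))
    (f : α → β → ℚ) (ψ : κ → β → ℚ) (hf : ∀ I j, f I j = ∑ k, g k I * ψ k j)
    (ξ : α → β → K)
    (hξ : ∀ I j, μ ^ v * (f I j : ℂ) = ∑ I', ∑ j', Xm I I' * Cm j j' * (ξ I' j' : ℂ)) (k : κ) :
    ∃ ζ : β → K, ∀ j, μ ^ (v - W k) * (ψ k j : ℂ) = ∑ j', Cm j j' * (ζ j' : ℂ) := by
  have hη' : LinearIndependent K η := by
    rw [Fintype.linearIndependent_iff]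
    intro c hc k
    obtain ⟨L, hL⟩ := exists_dual hg
    have h1 : ∀ I, ∑ k, (c k : ℂ) * μ ^ W k * (g k I : ℂ) = 0 := by
      intro I
      have e1 : ∑ k, (c k : ℂ) * μ ^ W k * (g k I : ℂ) = ∑ I', Xm I I' * ∑ k, (c k : ℂ) * (η k I' : ℂ) := by
        simp_rw [Finset.mul_sum]
        rw [Finset.sum_comm]
        refine Finset.sum_congr rfl fun k _ => ?_
        rw [mul_assoc, ← hη, Finset.mul_sum]
        exact Finset.sum_congr rfl fun I' _ => by ring
      rw [e1]
      refine Finset.sum_eq_zero fun I' _ => ?_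
      have e2 := congrArg (Subtype.val) (congrFun hc I')
      simp only [Finset.sum_apply, Pi.smul_apply, smul_eq_mul, AddSubmonoidClass.coe_finsetSum,
        Subfield.coe_mul, Pi.zero_apply, ZeroMemClass.coe_zero] at e2
      rw [e2, mul_zero]
    have h2 : ∑ I, (∑ k', (c k' : ℂ) * μ ^ W k' * (g k' I : ℂ)) * (L I k : ℂ) = (c k : ℂ) * μ ^ W k := by
      simp_rw [Finset.sum_mul]
      rw [Finset.sum_comm, Finset.sum_eq_single k]
      · have e3 : ∑ I, (g k I : ℂ) * (L I k : ℂ) = 1 := by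
          have := hL k k
          rw [if_pos rfl] at this
          exact_mod_cast this
        calc ∑ I, (c k : ℂ) * μ ^ W k * (g k I : ℂ) * (L I k : ℂ)
            = (c k : ℂ) * μ ^ W k * ∑ I, (g k I : ℂ) * (L I k : ℂ) := by
              rw [Finset.mul_sum]
              exact Finset.sum_congr rfl fun I _ => by ring
          _ = _ := by rw [e3, mul_one]
      · intro k' _ hk'
        have e3 : ∑ I, (g k' I : ℂ) * (L I k : ℂ) = 0 := by
          have := hL k' k
          rw [if_neg hk'] at this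
          exact_mod_cast this
        calc ∑ I, (c k' : ℂ) * μ ^ W k' * (g k' I : ℂ) * (L I k : ℂ)
            = (c k' : ℂ) * μ ^ W k' * ∑ I, (g k' I : ℂ) * (L I k : ℂ) := by
              rw [Finset.mul_sum]
              exact Finset.sum_congr rfl fun I _ => by ring
          _ = 0 := by rw [e3, mul_zero]
      · intro h
        exact absurd (Finset.mem_univ _) h
    have h3 : (c k : ℂ) * μ ^ W k = 0 := by
      rw [← h2]
      exact Finset.sum_eq_zero fun I _ => by rw [h1, zero_mul]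
    have h4 : (c k : ℂ) = 0 := (mul_eq_zero.1 h3).resolve_right (zpow_ne_zero _ hμ)
    exact_mod_cast h4
  obtain ⟨L, hL⟩ := exists_dual hη'
  have key : ∀ j I', ∑ k', μ ^ (v - W k') * (ψ k' j : ℂ) * (η k' I' : ℂ) =
      ∑ j', Cm j j' * (ξ I' j' : ℂ) := by
    intro j I'
    have h1 := hX (fun I' => ∑ k', μ ^ (v - W k') * (ψ k' j : ℂ) * (η k' I' : ℂ) -
      ∑ j', Cm j j' * (ξ I' j' : ℂ)) ?_ I'
    · exact sub_eq_zero.1 h1
    · intro I
      simp_rw [mul_sub, Finset.sum_sub_distrib]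
      have e1 : ∑ I', Xm I I' * ∑ k', μ ^ (v - W k') * (ψ k' j : ℂ) * (η k' I' : ℂ) = μ ^ v * (f I j : ℂ) := by
        simp_rw [Finset.mul_sum]
        rw [Finset.sum_comm, hf, Rat.cast_sum, Finset.mul_sum]
        refine Finset.sum_congr rfl fun k' _ => ?_
        calc ∑ I', Xm I I' * (μ ^ (v - W k') * (ψ k' j : ℂ) * (η k' I' : ℂ))
            = μ ^ (v - W k') * (ψ k' j : ℂ) * ∑ I', Xm I I' * (η k' I' : ℂ) := by
              rw [Finset.mul_sum]
              exact Finset.sum_congr rfl fun I _ => by ring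
          _ = μ ^ (v - W k') * μ ^ W k' * ((g k' I : ℂ) * (ψ k' j : ℂ)) := by rw [hη]; ring
          _ = μ ^ v * ((g k' I * ψ k' j : ℚ) : ℂ) := by
              rw [← zpow_add₀ hμ, sub_add_cancel, Rat.cast_mul]
      have e2 : ∑ I', Xm I I' * ∑ j', Cm j j' * (ξ I' j' : ℂ) = μ ^ v * (f I j : ℂ) := by
        rw [hξ]
        refine Finset.sum_congr rfl fun I' _ => ?_
        rw [Finset.mul_sum]
        exact Finset.sum_congr rfl fun j' _ => by ring
      rw [e1, e2, sub_self]
  refine ⟨fun j' => ∑ I', ξ I' j' * L I' k, fun j => ?_⟩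
  have h1 : ∑ I', (∑ k', μ ^ (v - W k') * (ψ k' j : ℂ) * (η k' I' : ℂ)) * (L I' k : ℂ) =
      μ ^ (v - W k) * (ψ k j : ℂ) := by
    simp_rw [Finset.sum_mul]
    have e0 : ∀ k', ∑ I', (η k' I' : ℂ) * (L I' k : ℂ) = if k' = k then 1 else 0 := by
      intro k'
      have := congrArg (Subtype.val) (hL k' k)
      simp only [AddSubmonoidClass.coe_finsetSum, Subfield.coe_mul] at this
      rw [this]
      split_ifs <;> rfl
    rw [Finset.sum_comm, Finset.sum_eq_single k]
    · calc ∑ I, μ ^ (v - W k) * (ψ k j : ℂ) * (η k I : ℂ) * (L I k : ℂ)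
          = μ ^ (v - W k) * (ψ k j : ℂ) * ∑ I, (η k I : ℂ) * (L I k : ℂ) := by
            rw [Finset.mul_sum]
            exact Finset.sum_congr rfl fun I _ => by ring
        _ = _ := by rw [e0, if_pos rfl, mul_one]
    · intro k' _ hk'
      calc ∑ I, μ ^ (v - W k') * (ψ k' j : ℂ) * (η k' I : ℂ) * (L I k : ℂ)
          = μ ^ (v - W k') * (ψ k' j : ℂ) * ∑ I, (η k' I : ℂ) * (L I k : ℂ) := by
            rw [Finset.mul_sum]
            exact Finset.sum_congr rfl fun I _ => by ring
        _ = 0 := by rw [e0, if_neg hk', mul_zero]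
    · intro h
      exact absurd (Finset.mem_univ _) h
  rw [← h1]
  simp_rw [key, Finset.sum_mul]
  rw [Finset.sum_comm]
  refine Finset.sum_congr rfl fun j' _ => ?_
  simp only [AddSubmonoidClass.coe_finsetSum, Subfield.coe_mul, Finset.mul_sum]
  exact Finset.sum_congr rfl fun I' _ => by ring

end Pool.Agent.L0h12.HP
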