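import Pool.Agent.L0h12.HP.Defs
import Pool.Agent.L0h12.HP.Ten
import Pool.Agent.TH125.Nod.Fft2

/-!
# De Rham-Betti classes on tensor powers: classes with one pattern of the variables
-/

set_option autoImplicit false

open Matrix

namespace Pool.Agent.L0h12.HP

variable {r N : ℕ} {n : Fin N → ℕ}

/-- the index set of the sum of the `M_i` -/
abbrev Cx {N : ℕ} (n : Fin N → ℕ) : Type := Σ i : Fin N, Fin (n i)

theorem bd_apply_of_ne {R : Type} [Zero R] (M : ∀ i, Matrix (Fin (n i)) (Fin (n i)) R) {p q : Cx n}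
    (h : p.1 ≠ q.1) : blockDiagonal' M p q = 0 := by
  obtain ⟨i, a⟩ := p
  obtain ⟨j, b⟩ := q
  exact blockDiagonal'_apply_ne _ _ _ h

theorem bd_sym {s : Fin N → ℤ} {E : ∀ i, Matrix (Fin (n i)) (Fin (n i)) ℚ}
    (hE : ∀ i, (E i)ᵀ = (s i : ℚ) • E i) (a b : Cx n) :
    blockDiagonal' E a b = (s a.1 : ℚ) * blockDiagonal' E b a := by
  obtain ⟨i, a⟩ := a
  obtain ⟨j, b⟩ := b
  by_cases hij : i = j
  · subst hij
    rw [blockDiagonal'_apply_eq, blockDiagonal'_apply_eq]
    have h := congrFun (congrFun (hE i) b) a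
    rw [transpose_apply, Matrix.smul_apply, smul_eq_mul] at h
    exact h
  · rw [blockDiagonal'_apply_ne _ _ _ hij, blockDiagonal'_apply_ne _ _ _ (Ne.symm hij), mul_zero]

theorem fft1 {s : Fin N → ℤ} (hs : ∀ i, s i = 1 ∨ s i = -1) {E : ∀ i, Matrix (Fin (n i)) (Fin (n i)) ℚ}
    (hE : ∀ i, (E i)ᵀ = (s i : ℚ) • E i)
    (hd : ∀ i, IsUnit (E i)) {M : Type} [AddCommGroup M] [Module ℚ M] {S : Type} [Fintype S]
    [DecidableEq S] (c : S → Fin N) (hc : ∀ i, s i = 1 → (Finset.univ.filter fun j => c j = i).card < n i)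
    (f : (S → Cx n) → M)
    (hsup : Pool.Agent.TH125.Nod.Sup (Sigma.fst : Cx n → Fin N) c f)
    (hinv : Pool.Agent.TH125.Nod.Inv (Sigma.fst : Cx n → Fin N) (blockDiagonal' E)
      (fun i => ((s i : ℤ) : ℚ)) f) :
    f ∈ Pool.Agent.TH125.Nod.Gen (Sigma.fst : Cx n → Fin N) (blockDiagonal' E) c := by
  refine Pool.Agent.TH125.Nod.fft (κ := (Sigma.fst : Cx n → Fin N)) (Q := blockDiagonal' E)
    (R := blockDiagonal' fun i => (E i)⁻¹) (s := s) hs
    (fun a b h => bd_apply_of_ne E h) (fun a b => bd_sym hE a b) ?_ (Fintype.card S) S c f rfl hsup hinv ?_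
  · rw [← blockDiagonal'_mul, ← blockDiagonal'_one]
    congr 1
    funext i
    exact mul_nonsing_inv _ ((isUnit_iff_isUnit_det _).1 (hd i))
  · intro i hi
    refine lt_of_lt_of_le (hc i hi) ?_
    have h1 : (Finset.univ : Finset (Fin (n i))).card ≤
        (Pool.Agent.TH125.Nod.blk (Sigma.fst : Cx n → Fin N) i).card := by
      refine Finset.card_le_card_of_injOn (fun a => (⟨i, a⟩ : Cx n)) (fun a _ => ?_) ?_
      · exact Finset.mem_coe.2 (Pool.Agent.TH125.Nod.mem_blk.2 rfl)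
      · intro a _ b _ h
        exact eq_of_heq (Sigma.mk.inj h).2
    rw [Finset.card_univ, Fintype.card_fin] at h1
    exact h1

/-- the transform of Cayley -/
theorem cayley {m : Type} [Fintype m] [DecidableEq m] {E Y : Matrix m m ℂ} (h : Y * E + E * Yᵀ = 0)
    (hE : IsUnit E) {t : ℂ} (ht : (1 - t • Y).det ≠ 0) :
    ∃ g, (1 - t • Y) * g = 1 + t • Y ∧ g.det = 1 ∧ g * E * gᵀ = E := by
  have hA : IsUnit (1 - t • Y).det := isUnit_iff_ne_zero.2 ht
  set A := 1 - t • Y with hAdef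
  set B := 1 + t • Y with hBdef
  have hY : Y * E = -(E * Yᵀ) := eq_neg_of_add_eq_zero_left h
  have hBE : B * E = E * Aᵀ := by
    rw [hAdef, hBdef, transpose_sub, transpose_one, transpose_smul, add_mul, one_mul, mul_sub, mul_one,
      smul_mul_assoc, hY, mul_smul_comm, smul_neg, sub_eq_add_neg]
  have hAE : A * E = E * Bᵀ := by
    rw [hAdef, hBdef, transpose_add, transpose_one, transpose_smul, sub_mul, one_mul, mul_add, mul_one,
      smul_mul_assoc, hY, mul_smul_comm, smul_neg, sub_neg_eq_add]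
  have hAB : A * B = B * A := by
    have h1 : ∀ X : Matrix m m ℂ, (1 - X) * (1 + X) = (1 + X) * (1 - X) := fun X => by noncomm_ring
    rw [hAdef, hBdef]
    exact h1 _
  have hEd : E.det ≠ 0 := ((isUnit_iff_isUnit_det E).1 hE).ne_zero
  have hdet : B.det = A.det := by
    have h1 := congrArg Matrix.det hBE
    rw [det_mul, det_mul, det_transpose, mul_comm E.det] at h1
    exact mul_right_cancel₀ hEd h1
  refine ⟨A⁻¹ * B, ?_, ?_, ?_⟩
  · rw [← mul_assoc, mul_nonsing_inv _ hA, one_mul]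
  · rw [det_mul, hdet, ← det_mul, nonsing_inv_mul _ hA, det_one]
  · have hAt : IsUnit (Aᵀ).det := by rwa [det_transpose]
    rw [transpose_mul, transpose_nonsing_inv]
    calc A⁻¹ * B * E * (Bᵀ * Aᵀ⁻¹) = A⁻¹ * (B * E) * Bᵀ * Aᵀ⁻¹ := by simp only [mul_assoc]
      _ = A⁻¹ * (E * (Aᵀ * Bᵀ)) * Aᵀ⁻¹ := by rw [hBE]; simp only [mul_assoc]
      _ = A⁻¹ * (E * (Bᵀ * Aᵀ)) * Aᵀ⁻¹ := by rw [← transpose_mul, ← hAB, transpose_mul]
      _ = A⁻¹ * (E * Bᵀ) * (Aᵀ * Aᵀ⁻¹) := by simp only [mul_assoc]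
      _ = A⁻¹ * (A * E) := by rw [mul_nonsing_inv _ hAt, mul_one, hAE]
      _ = E := by rw [← mul_assoc, nonsing_inv_mul _ hA, one_mul]

theorem total_one_add (Y : ∀ i, Matrix (Fin (n i)) (Fin (n i)) ℂ) (t : ℂ) :
    total (1 : Matrix (Fin r) (Fin r) ℂ) (fun i => 1 + t • Y i) =
      1 + t • Matrix.fromBlocks 0 0 0 (blockDiagonal' Y) := by
  unfold total
  have h1 : blockDiagonal' (fun i => 1 + t • Y i) = 1 + t • blockDiagonal' Y := by
    rw [← blockDiagonal'_smul, ← blockDiagonal'_one, ← blockDiagonal'_add]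
    rfl
  rw [h1, ← fromBlocks_one, fromBlocks_smul, fromBlocks_add]
  simp

theorem total_mul (x y : Matrix (Fin r) (Fin r) ℂ) (X Y : ∀ i, Matrix (Fin (n i)) (Fin (n i)) ℂ) :
    total x X * total y Y = total (x * y) (fun i => X i * Y i) := by
  unfold total
  rw [fromBlocks_multiply, blockDiagonal'_mul]
  simp

section pattern

variable {S A : Type} [Fintype S] [DecidableEq S] [Fintype A] [DecidableEq A]

/-- join -/
def jn (I : S → Cx n) (j : A → Fin r) : S ⊕ A → Index r n :=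
  Sum.elim (fun s => Sum.inr (I s)) fun a => Sum.inl (j a)

theorem jn_inj : Function.Injective fun p : (S → Cx n) × (A → Fin r) => jn p.1 p.2 := by
  rintro ⟨I, j⟩ ⟨I', j'⟩ h
  refine Prod.ext ?_ ?_
  · funext s
    exact Sum.inr_injective (congrFun h (Sum.inl s))
  · funext a
    exact Sum.inl_injective (congrFun h (Sum.inr a))

theorem exists_jn (J : S ⊕ A → Index r n) (h1 : ∀ s, ∃ p, J (Sum.inl s) = Sum.inr p)
    (h2 : ∀ a, ∃ q, J (Sum.inr a) = Sum.inl q) : ∃ (I : S → Cx n) (j : A → Fin r), J = jn I j := by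
  choose I hI using h1
  choose j hj using h2
  refine ⟨I, j, ?_⟩
  funext l
  rcases l with s | a
  · exact hI s
  · exact hj a

theorem sum_jn (C₀ : Matrix (Fin r) (Fin r) ℂ) (X : ∀ i, Matrix (Fin (n i)) (Fin (n i)) ℂ)
    (ξ : (S ⊕ A → Index r n) → ℂ) (I : S → Cx n) (j : A → Fin r) :
    ∑ J, (∏ l, total C₀ X (jn I j l) (J l)) * ξ J =
      ∑ I', ∑ j', (∏ s, blockDiagonal' X (I s) (I' s)) * (∏ a, C₀ (j a) (j' a)) * ξ (jn I' j') := by
  rw [← Fintype.sum_prod_type' (fun (I' : S → Cx n) (j' : A → Fin r) =>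
    (∏ s, blockDiagonal' X (I s) (I' s)) * (∏ a, C₀ (j a) (j' a)) * ξ (jn I' j'))]
  symm
  refine Fintype.sum_of_injective (fun p : (S → Cx n) × (A → Fin r) => jn p.1 p.2) jn_inj _ _ ?_ ?_
  · intro J hJ
    have h : ¬ ((∀ s, ∃ p, J (Sum.inl s) = Sum.inr p) ∧ ∀ a, ∃ q, J (Sum.inr a) = Sum.inl q) := by
      rintro ⟨h1, h2⟩
      obtain ⟨I', j', h3⟩ := exists_jn J h1 h2
      exact hJ ⟨(I', j'), h3.symm⟩
    rw [not_and_or] at h
    have h0 : ∏ l, total C₀ X (jn I j l) (J l) = 0 := by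
      rcases h with h | h
      · push Not at h
        obtain ⟨s, hs⟩ := h
        refine Finset.prod_eq_zero (Finset.mem_univ (Sum.inl s)) ?_
        rcases hJs : J (Sum.inl s) with q | p
        · rfl
        · exact absurd hJs (hs p)
      · push Not at h
        obtain ⟨a, ha⟩ := h
        refine Finset.prod_eq_zero (Finset.mem_univ (Sum.inr a)) ?_
        rcases hJa : J (Sum.inr a) with q | p
        · exact absurd hJa (ha q)
        · rfl
    rw [h0, zero_mul]
  · rintro ⟨I', j'⟩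
    rw [Fintype.prod_sum_type]
    rfl

theorem update_jn_inl (I : S → Cx n) (j : A → Fin r) (s : S) (b : Cx n) :
    Function.update (jn I j) (Sum.inl s) (Sum.inr b) = jn (Function.update I s b) j := by
  funext l
  rcases l with s' | a
  · by_cases h : s' = s
    · subst h
      simp [jn]
    · simp [jn, Function.update_of_ne h, Function.update_of_ne (fun h' => h (Sum.inl_injective h'))]
  · simp [jn]

/-- invariance of the tensor under the isometries of determinant one of the forms -/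
def Invt {P : Type} [Fintype P] [DecidableEq P] (E : ∀ i, Matrix (Fin (n i)) (Fin (n i)) ℚ)
    (φ : (P → Index r n) → ℚ) : Prop :=
  ∀ g : ∀ i, Matrix (Fin (n i)) (Fin (n i)) ℂ, (∀ i, (g i).det = 1 ∧
      g i * (E i).map (Rat.cast : ℚ → ℂ) * (g i)ᵀ = (E i).map (Rat.cast : ℚ → ℂ)) →
    ten (total (1 : Matrix (Fin r) (Fin r) ℂ) g) (fun J => (φ J : ℂ)) = fun J => (φ J : ℂ)

theorem inv_aux {E : ∀ i, Matrix (Fin (n i)) (Fin (n i)) ℚ} (hd : ∀ i, IsUnit (E i))
    {P : Type} [Fintype P] [DecidableEq P] {φ : (P → Index r n) → ℚ} (hinv : Invt E φ)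
    (Y : ∀ i, Matrix (Fin (n i)) (Fin (n i)) ℂ)
    (hY : ∀ i, Y i * (E i).map (Rat.cast : ℚ → ℂ) + (E i).map (Rat.cast : ℚ → ℂ) * (Y i)ᵀ = 0) (I : P → Index r n) :
    ∑ l, ∑ b, Matrix.fromBlocks 0 0 0 (blockDiagonal' Y) (I l) b * (φ (Function.update I l b) : ℂ) = 0 := by
  refine ten_deriv (ξ := fun J => (φ J : ℂ)) ?_ I
  have hdu : ∀ i, IsUnit ((E i).map (Rat.cast : ℚ → ℂ)) := fun i => by
    have h1 := (hd i).map (Rat.castHom ℂ).mapMatrix
    exact h1
  have h0 : ∀ i, ∀ᶠ t : ℂ in nhds 0, (1 - t • Y i).det ≠ 0 := by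
    intro i
    have h1 : Continuous fun t : ℂ => (1 - t • Y i).det :=
      Continuous.matrix_det (continuous_const.sub (continuous_id.smul continuous_const))
    refine h1.continuousAt.eventually_ne ?_
    simp
  filter_upwards [Filter.eventually_all.2 h0] with t ht
  choose g hg1 hg2 hg3 using fun i => cayley (hY i) (hdu i) (ht i)
  have h2 := hinv g fun i => ⟨hg2 i, hg3 i⟩
  have h3 : total (1 : Matrix (Fin r) (Fin r) ℂ) (fun i => 1 - t • Y i) * total 1 g =
      1 + t • Matrix.fromBlocks 0 0 0 (blockDiagonal' Y) := by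
    rw [total_mul, mul_one, ← total_one_add]
    congr 1
    funext i
    exact hg1 i
  have h4 : total (1 : Matrix (Fin r) (Fin r) ℂ) (fun i => 1 - t • Y i) =
      1 - t • Matrix.fromBlocks 0 0 0 (blockDiagonal' Y) := by
    have h5 := total_one_add (r := r) Y (-t)
    simp only [neg_smul, ← sub_eq_add_neg] at h5
    exact h5
  rw [← h3, ten_mul, h2, h4]

theorem inv_of {s : Fin N → ℤ} (hs : ∀ i, s i = 1 ∨ s i = -1) {E : ∀ i, Matrix (Fin (n i)) (Fin (n i)) ℚ}
    (hE : ∀ i, (E i)ᵀ = (s i : ℚ) • E i) (hd : ∀ i, IsUnit (E i))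
    {φ : (S ⊕ A → Index r n) → ℚ} (hinv : Invt E φ) :
    Pool.Agent.TH125.Nod.Inv (Sigma.fst : Cx n → Fin N) (blockDiagonal' E)
      (fun i => ((s i : ℤ) : ℚ)) (fun (I : S → Cx n) (j : A → Fin r) => φ (jn I j)) := by
  intro u v huv I
  funext j
  rw [Finset.sum_apply]
  simp only [Pi.sub_apply, Pi.smul_apply, smul_eq_mul, Pi.zero_apply]
  set Q : Matrix (Cx n) (Cx n) ℂ := (blockDiagonal' E).map (Rat.cast : ℚ → ℂ) with hQ
  have hQ' : Q = blockDiagonal' fun i => (E i).map (Rat.cast : ℚ → ℂ) := by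
    rw [hQ, blockDiagonal'_map _ _ Rat.cast_zero]
  have hss : ((s u.1 : ℤ) : ℂ) * ((s u.1 : ℤ) : ℂ) = 1 := by
    rcases hs u.1 with h | h <;> rw [h] <;> norm_num
  have hsym : ∀ a b : Cx n, Q a b = ((s a.1 : ℤ) : ℂ) * Q b a := by
    intro a b
    have h := bd_sym hE a b
    show ((blockDiagonal' E a b : ℚ) : ℂ) = _ * ((blockDiagonal' E b a : ℚ) : ℂ)
    rw [h]
    push_cast
    rfl
  have hcol : ∀ x : Cx n, x.1 = u.1 → ∀ a, Q a x = ((s u.1 : ℤ) : ℂ) * Q x a := by
    intro x hx a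
    by_cases ha : a.1 = x.1
    · rw [hsym a x, ha, hx]
    · have e1 : Q a x = 0 := by
        show ((blockDiagonal' E a x : ℚ) : ℂ) = 0
        rw [bd_apply_of_ne E ha, Rat.cast_zero]
      have e2 : Q x a = 0 := by
        show ((blockDiagonal' E x a : ℚ) : ℂ) = 0
        rw [bd_apply_of_ne E (Ne.symm ha), Rat.cast_zero]
      rw [e1, e2, mul_zero]
  -- the element of the Lie algebra
  set Y : Matrix (Cx n) (Cx n) ℂ := Matrix.of fun a b => Q v a * (if b = u then 1 else 0) -
    ((s u.1 : ℤ) : ℂ) * Q u a * (if b = v then 1 else 0) with hY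
  have hYb : blockDiagonal' (blockDiag' Y) = Y := by
    ext ⟨i, a⟩ ⟨j, b⟩
    by_cases hij : i = j
    · subst hij
      rw [blockDiagonal'_apply_eq, blockDiag'_apply]
    · rw [blockDiagonal'_apply_ne _ _ _ hij, hY, Matrix.of_apply]
      have e1 : Q v ⟨i, a⟩ * (if (⟨j, b⟩ : Cx n) = u then (1 : ℂ) else 0) = 0 := by
        by_cases hb : (⟨j, b⟩ : Cx n) = u
        · have : Q v ⟨i, a⟩ = 0 := by
            show ((blockDiagonal' E v ⟨i, a⟩ : ℚ) : ℂ) = 0
            rw [bd_apply_of_ne E, Rat.cast_zero]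
            rw [← huv, ← hb]
            exact Ne.symm hij
          rw [this, zero_mul]
        · rw [if_neg hb, mul_zero]
      have e2 : ((s u.1 : ℤ) : ℂ) * Q u ⟨i, a⟩ * (if (⟨j, b⟩ : Cx n) = v then (1 : ℂ) else 0) = 0 := by
        by_cases hb : (⟨j, b⟩ : Cx n) = v
        · have : Q u ⟨i, a⟩ = 0 := by
            show ((blockDiagonal' E u ⟨i, a⟩ : ℚ) : ℂ) = 0
            rw [bd_apply_of_ne E, Rat.cast_zero]
            rw [huv, ← hb]
            exact Ne.symm hij
          rw [this, mul_zero, zero_mul]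
        · rw [if_neg hb, mul_zero]
      rw [e1, e2, sub_zero]
  have hYQ : Y * Q + Q * Yᵀ = 0 := by
    ext a b
    rw [Matrix.add_apply, Matrix.mul_apply, Matrix.mul_apply, Matrix.zero_apply]
    have e1 : ∑ c, Y a c * Q c b = Q v a * Q u b - ((s u.1 : ℤ) : ℂ) * Q u a * Q v b := by
      simp only [hY, Matrix.of_apply, sub_mul, Finset.sum_sub_distrib]
      congr 1
      · rw [Finset.sum_eq_single u]
        · rw [if_pos rfl, mul_one]
        · intro c _ hc
          rw [if_neg hc, mul_zero, zero_mul]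
        · intro h
          exact absurd (Finset.mem_univ _) h
      · rw [Finset.sum_eq_single v]
        · rw [if_pos rfl, mul_one]
        · intro c _ hc
          rw [if_neg hc, mul_zero, zero_mul]
        · intro h
          exact absurd (Finset.mem_univ _) h
    have e2 : ∑ c, Q a c * Yᵀ c b = Q a u * Q v b - ((s u.1 : ℤ) : ℂ) * Q a v * Q u b := by
      simp only [hY, transpose_apply, Matrix.of_apply, mul_sub, Finset.sum_sub_distrib]
      congr 1
      · rw [Finset.sum_eq_single u]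
        · rw [if_pos rfl, mul_one]
        · intro c _ hc
          rw [if_neg hc, mul_zero, mul_zero]
        · intro h
          exact absurd (Finset.mem_univ _) h
      · rw [Finset.sum_eq_single v]
        · rw [if_pos rfl]
          ring
        · intro c _ hc
          rw [if_neg hc, mul_zero, mul_zero]
        · intro h
          exact absurd (Finset.mem_univ _) h
    rw [e1, e2, hcol u rfl a, hcol v huv.symm a]
    linear_combination (-(Q v a * Q u b)) * hss
  have hYi : ∀ i, blockDiag' Y i * (E i).map (Rat.cast : ℚ → ℂ) +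
      (E i).map (Rat.cast : ℚ → ℂ) * (blockDiag' Y i)ᵀ = 0 := by
    have h5 : blockDiagonal' (fun i => blockDiag' Y i * (E i).map (Rat.cast : ℚ → ℂ) +
        (E i).map (Rat.cast : ℚ → ℂ) * (blockDiag' Y i)ᵀ) =
        blockDiagonal' (fun i => (0 : Matrix (Fin (n i)) (Fin (n i)) ℂ)) := by
      have e1 : blockDiagonal' (fun i => blockDiag' Y i * (E i).map (Rat.cast : ℚ → ℂ)) = Y * Q := by
        rw [blockDiagonal'_mul, ← hQ', show (blockDiagonal' fun i => blockDiag' Y i) = Y from hYb]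
      have e2 : blockDiagonal' (fun i => (E i).map (Rat.cast : ℚ → ℂ) * (blockDiag' Y i)ᵀ) = Q * Yᵀ := by
        rw [blockDiagonal'_mul, ← hQ', ← blockDiagonal'_transpose,
          show (blockDiagonal' fun i => blockDiag' Y i) = Y from hYb]
      have e3 := blockDiagonal'_add (fun i => blockDiag' Y i * (E i).map (Rat.cast : ℚ → ℂ))
        (fun i => (E i).map (Rat.cast : ℚ → ℂ) * (blockDiag' Y i)ᵀ)
      rw [e1, e2, hYQ] at e3
      have e4 := blockDiagonal'_zero (α := ℂ) (m' := fun i : Fin N => Fin (n i)) (n' := fun i : Fin N => Fin (n i))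
      exact e3.trans e4.symm
    exact fun i => congrFun (blockDiagonal'_injective h5) i
  have h2 := inv_aux hd hinv (blockDiag' Y) hYi (jn I j)
  rw [hYb, Fintype.sum_sum_type] at h2
  have h3 : ∑ a : A, ∑ b, Matrix.fromBlocks 0 0 0 Y (jn I j (Sum.inr a)) b *
      (φ (Function.update (jn I j) (Sum.inr a) b) : ℂ) = 0 := by
    refine Finset.sum_eq_zero fun a _ => Finset.sum_eq_zero fun b _ => ?_
    rcases b with b | b
    · show (0 : ℂ) * _ = 0
      rw [zero_mul]
    · show (0 : ℂ) * _ = 0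
      rw [zero_mul]
  rw [h3, add_zero] at h2
  have h4 : ∀ x : S, ∑ b, Matrix.fromBlocks 0 0 0 Y (jn I j (Sum.inl x)) b *
      (φ (Function.update (jn I j) (Sum.inl x) b) : ℂ) =
      ((blockDiagonal' E v (I x) * φ (jn (Function.update I x u) j) -
        ((s u.1 : ℤ) : ℚ) * blockDiagonal' E u (I x) * φ (jn (Function.update I x v) j) : ℚ) : ℂ) := by
    intro x
    rw [Fintype.sum_sum_type]
    have e1 : ∑ b : Fin r, Matrix.fromBlocks 0 0 0 Y (jn I j (Sum.inl x)) (Sum.inl b) *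
        (φ (Function.update (jn I j) (Sum.inl x) (Sum.inl b)) : ℂ) = 0 := by
      refine Finset.sum_eq_zero fun b _ => ?_
      show (0 : ℂ) * _ = 0
      rw [zero_mul]
    rw [e1, zero_add]
    have e2 : ∀ b : Cx n, (Matrix.fromBlocks 0 0 0 Y : Matrix (Index r n) (Index r n) ℂ) (jn I j (Sum.inl x)) (Sum.inr b) *
        (φ (Function.update (jn I j) (Sum.inl x) (Sum.inr b)) : ℂ) =
        Q v (I x) * (if b = u then 1 else 0) * (φ (jn (Function.update I x b) j) : ℂ) -
        ((s u.1 : ℤ) : ℂ) * Q u (I x) * (if b = v then 1 else 0) * (φ (jn (Function.update I x b) j) : ℂ) := by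
      intro b
      rw [update_jn_inl]
      show (Q v (I x) * (if b = u then 1 else 0) - ((s u.1 : ℤ) : ℂ) * Q u (I x) * (if b = v then 1 else 0)) *
        (φ (jn (Function.update I x b) j) : ℂ) = _
      rw [sub_mul]
    rw [Finset.sum_congr rfl fun b _ => e2 b, Finset.sum_sub_distrib]
    rw [Finset.sum_eq_single u, Finset.sum_eq_single v]
    · rw [if_pos rfl, if_pos rfl, mul_one, mul_one]
      show ((blockDiagonal' E v (I x) : ℚ) : ℂ) * _ - _ * ((blockDiagonal' E u (I x) : ℚ) : ℂ) * _ = _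
      push_cast
      rfl
    · intro c _ hc
      rw [if_neg hc, mul_zero, zero_mul]
    · intro h
      exact absurd (Finset.mem_univ _) h
    · intro c _ hc
      rw [if_neg hc, mul_zero, zero_mul]
    · intro h
      exact absurd (Finset.mem_univ _) h
  rw [Finset.sum_congr rfl fun x _ => h4 x] at h2
  exact_mod_cast h2

end pattern

end Pool.Agent.L0h12.HP
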