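import Pool.Agent.L0h12.HP.Ten

/-!
# De Rham-Betti classes on tensor powers: the subtorsor which is defined by a class
-/

set_option autoImplicit false

open Matrix

namespace Pool.Agent.L0h12.HP

section poly

variable {K : Subfield ℂ} {B : Type}

/-- polynomial functions over `K` -/
def PolyFun (K : Subfield ℂ) {B : Type} (F : Matrix B B ℂ → ℂ) : Prop :=
  ∃ p : MvPolynomial (B × B) K, ∀ x : Matrix B B ℂ,
    F x = MvPolynomial.eval (fun b => x b.1 b.2) (MvPolynomial.map (algebraMap K ℂ) p)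

theorem PolyFun.const {z : ℂ} (hz : z ∈ K) : PolyFun K (fun _ : Matrix B B ℂ => z) :=
  ⟨MvPolynomial.C ⟨z, hz⟩, fun x => by rw [MvPolynomial.map_C, MvPolynomial.eval_C]; rfl⟩

theorem PolyFun.entry (i j : B) : PolyFun K (fun x : Matrix B B ℂ => x i j) :=
  ⟨MvPolynomial.X (i, j), fun x => by rw [MvPolynomial.map_X, MvPolynomial.eval_X]⟩

theorem PolyFun.mul {F G : Matrix B B ℂ → ℂ} (hF : PolyFun K F) (hG : PolyFun K G) :
    PolyFun K (fun x => F x * G x) := by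
  obtain ⟨p, hp⟩ := hF
  obtain ⟨q, hq⟩ := hG
  exact ⟨p * q, fun x => by rw [map_mul, map_mul, ← hp, ← hq]⟩

theorem PolyFun.sub {F G : Matrix B B ℂ → ℂ} (hF : PolyFun K F) (hG : PolyFun K G) :
    PolyFun K (fun x => F x - G x) := by
  obtain ⟨p, hp⟩ := hF
  obtain ⟨q, hq⟩ := hG
  exact ⟨p - q, fun x => by rw [map_sub, map_sub, ← hp, ← hq]⟩

theorem PolyFun.pow {F : Matrix B B ℂ → ℂ} (hF : PolyFun K F) (k : ℕ) :
    PolyFun K (fun x => F x ^ k) := by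
  obtain ⟨p, hp⟩ := hF
  exact ⟨p ^ k, fun x => by rw [map_pow, map_pow, ← hp]⟩

theorem PolyFun.sum {ι : Type} (s : Finset ι) {F : ι → Matrix B B ℂ → ℂ} (h : ∀ i, PolyFun K (F i)) :
    PolyFun K (fun x => ∑ i ∈ s, F i x) := by
  choose p hp using h
  exact ⟨∑ i ∈ s, p i, fun x => by rw [map_sum, map_sum]; exact Finset.sum_congr rfl fun i _ => hp i x⟩

theorem PolyFun.prod {ι : Type} (s : Finset ι) {F : ι → Matrix B B ℂ → ℂ} (h : ∀ i, PolyFun K (F i)) :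
    PolyFun K (fun x => ∏ i ∈ s, F i x) := by
  choose p hp using h
  exact ⟨∏ i ∈ s, p i, fun x => by rw [map_prod, map_prod]; exact Finset.prod_congr rfl fun i _ => hp i x⟩

theorem exists_ideal {T : Set (Matrix B B ℂ)} [Fintype B] [DecidableEq B]
    (𝓕 : Set (Matrix B B ℂ → ℂ)) (h𝓕 : ∀ F ∈ 𝓕, PolyFun K F)
    (h2 : ∀ x, x ∈ T ↔ IsUnit x ∧ ∀ F ∈ 𝓕, F x = 0) :
    ∃ I : Set (MvPolynomial (B × B) K), ∀ x : Matrix B B ℂ, x ∈ T ↔ IsUnit x ∧
      ∀ p ∈ I, MvPolynomial.eval (fun b => x b.1 b.2) (MvPolynomial.map (algebraMap K ℂ) p) = 0 := by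
  refine ⟨{p | ∃ F ∈ 𝓕, ∀ x : Matrix B B ℂ,
    F x = MvPolynomial.eval (fun b => x b.1 b.2) (MvPolynomial.map (algebraMap K ℂ) p)}, fun x => ?_⟩
  rw [h2]
  refine and_congr_right fun _ => ⟨?_, ?_⟩
  · rintro h p ⟨F, hF, hp⟩
    rw [← hp]
    exact h F hF
  · intro h F hF
    obtain ⟨p, hp⟩ := h𝓕 F hF
    rw [hp]
    exact h p ⟨F, hF, hp⟩

end poly

section block

variable {B L : Type} [Fintype B] [DecidableEq B] {lab : B → L}

/-- block matrices -/
def Bk (lab : B → L) (y : Matrix B B ℂ) : Prop := ∀ p q, lab p ≠ lab q → y p q = 0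

theorem Bk.mul {y z : Matrix B B ℂ} (hy : Bk lab y) (hz : Bk lab z) : Bk lab (y * z) := by
  intro p q hpq
  rw [Matrix.mul_apply]
  refine Finset.sum_eq_zero fun c _ => ?_
  by_cases h : lab p = lab c
  · rw [hz c q (by rw [← h]; exact hpq), mul_zero]
  · rw [hy p c h, zero_mul]

theorem Bk.inv {y : Matrix B B ℂ} (hy : Bk lab y) (hu : IsUnit y) : Bk lab y⁻¹ := by
  classical
  intro p q hpq
  set d : Matrix B B ℂ := Matrix.diagonal fun c => if lab c = lab q then 1 else 0 with hd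
  have h1 : y * d = d * y := by
    ext a b
    rw [hd, Matrix.mul_diagonal, Matrix.diagonal_mul]
    by_cases hab : lab a = lab b
    · rw [hab, mul_comm]
    · rw [hy a b hab, zero_mul, mul_zero]
  have hdet := (Matrix.isUnit_iff_isUnit_det _).1 hu
  have h2 : y⁻¹ * d = d * y⁻¹ := by
    calc y⁻¹ * d = y⁻¹ * (d * y) * y⁻¹ := by
          rw [mul_assoc, mul_assoc, Matrix.mul_nonsing_inv _ hdet, mul_one]
      _ = y⁻¹ * (y * d) * y⁻¹ := by rw [h1]
      _ = d * y⁻¹ := by rw [← mul_assoc, Matrix.nonsing_inv_mul _ hdet, one_mul]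
  have h3 := congrFun (congrFun h2 p) q
  rw [hd, Matrix.mul_diagonal, Matrix.diagonal_mul, if_pos rfl, if_neg hpq, mul_one, zero_mul] at h3
  exact h3

variable {B' : Type} [Fintype B'] [DecidableEq B'] {emb : B' → B}

omit [DecidableEq B] [DecidableEq B'] in
theorem sub_mul (hemb : Function.Injective emb) (hemb2 : ∀ x q, lab (emb x) = lab q → q ∈ Set.range emb)
    {y z : Matrix B B ℂ} (hy : Bk lab y) :
    (y * z).submatrix emb emb = y.submatrix emb emb * z.submatrix emb emb := by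
  ext x x'
  rw [Matrix.submatrix_apply, Matrix.mul_apply, Matrix.mul_apply]
  symm
  refine Fintype.sum_of_injective emb hemb _ _ (fun q hq => ?_) fun _ => rfl
  rw [hy (emb x) q fun h => hq (hemb2 x q h), zero_mul]

omit [DecidableEq B] in
theorem b0_mul {b₀ : B} (hb₀ : ∀ p, lab p = lab b₀ → p = b₀) {y z : Matrix B B ℂ} (hy : Bk lab y) :
    (y * z) b₀ b₀ = y b₀ b₀ * z b₀ b₀ := by
  rw [Matrix.mul_apply, Finset.sum_eq_single b₀]
  · intro c _ hc
    rw [hy b₀ c fun h => hc (hb₀ c h.symm), zero_mul]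
  · intro h
    exact absurd (Finset.mem_univ _) h

theorem b0_inv {b₀ : B} (hb₀ : ∀ p, lab p = lab b₀ → p = b₀) {y : Matrix B B ℂ} (hy : Bk lab y)
    (hu : IsUnit y) : y b₀ b₀ ≠ 0 ∧ y⁻¹ b₀ b₀ = (y b₀ b₀)⁻¹ := by
  have h1 := b0_mul hb₀ (z := y⁻¹) hy
  rw [Matrix.mul_nonsing_inv _ ((Matrix.isUnit_iff_isUnit_det _).1 hu), Matrix.one_apply_eq] at h1
  have h2 : y b₀ b₀ ≠ 0 := fun h => by
    rw [h, zero_mul] at h1
    exact one_ne_zero h1
  exact ⟨h2, eq_inv_of_mul_eq_one_right h1.symm⟩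

/-- the subtorsor which is defined by a class -/
def classSet (K : Subfield ℂ) (lab : B → L) (b₀ : B) (emb : B' → B) {P : Type} [Fintype P] [DecidableEq P] (v : ℤ)
    (φ : (P → B') → ℚ) (ξ : (P → B') → K) : Set (Matrix B B ℂ) :=
  {y | IsUnit y ∧ Bk lab y ∧ ∀ I, (y b₀ b₀) ^ v * (φ I : ℂ) = ten (y.submatrix emb emb) (fun J => (ξ J : ℂ)) I}

theorem classSet_sub {K : Subfield ℂ} {b₀ : B} (hb₀ : ∀ p, lab p = lab b₀ → p = b₀)
    (hemb : Function.Injective emb) (hemb2 : ∀ x q, lab (emb x) = lab q → q ∈ Set.range emb)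
    {P : Type} [Fintype P] [DecidableEq P] (v : ℤ) (φ : (P → B') → ℚ) (ξ : (P → B') → K) :
    (∀ x ∈ classSet K lab b₀ emb v φ ξ, ∀ y ∈ classSet K lab b₀ emb v φ ξ,
      ∀ z ∈ classSet K lab b₀ emb v φ ξ, x * y⁻¹ * z ∈ classSet K lab b₀ emb v φ ξ) ∧
    ∃ I : Set (MvPolynomial (B × B) K), ∀ x : Matrix B B ℂ, x ∈ classSet K lab b₀ emb v φ ξ ↔ IsUnit x ∧
      ∀ p ∈ I, MvPolynomial.eval (fun b => x b.1 b.2) (MvPolynomial.map (algebraMap K ℂ) p) = 0 := by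
  refine ⟨?_, ?_⟩
  · rintro x ⟨hx1, hx2, hx3⟩ y ⟨hy1, hy2, hy3⟩ z ⟨hz1, hz2, hz3⟩
    have hyd := (Matrix.isUnit_iff_isUnit_det _).1 hy1
    have hyi := hy2.inv hy1
    have hyu : IsUnit y⁻¹ := (Matrix.isUnit_nonsing_inv_iff).2 hy1
    have hxy := hx2.mul hyi
    refine ⟨(hx1.mul hyu).mul hz1, hxy.mul hz2, fun I => ?_⟩
    obtain ⟨hμ, hμ'⟩ := b0_inv hb₀ hy2 hy1
    rw [b0_mul hb₀ hxy, b0_mul hb₀ hx2, hμ', sub_mul hemb hemb2 hxy, sub_mul hemb hemb2 hx2, ten_mul, ten_mul]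
    have e1 : ten (z.submatrix emb emb) (fun J => (ξ J : ℂ)) = fun I => (z b₀ b₀) ^ v * (φ I : ℂ) :=
      funext fun I => (hz3 I).symm
    have e2 : ten (y.submatrix emb emb) (fun J => (ξ J : ℂ)) = fun I => (y b₀ b₀) ^ v * (φ I : ℂ) :=
      funext fun I => (hy3 I).symm
    have e3 : y⁻¹.submatrix emb emb * y.submatrix emb emb = 1 := by
      rw [← sub_mul hemb hemb2 hyi, Matrix.nonsing_inv_mul _ hyd, Matrix.submatrix_one _ hemb]
    have e4 : ten (y⁻¹.submatrix emb emb) (fun I => (φ I : ℂ)) = fun J => ((y b₀ b₀) ^ v)⁻¹ * (ξ J : ℂ) := by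
      have e5 : ten (y⁻¹.submatrix emb emb) (ten (y.submatrix emb emb) (fun J => (ξ J : ℂ))) =
          fun J => (ξ J : ℂ) := by
        rw [← ten_mul, e3, ten_one]
      rw [e2, ten_smul] at e5
      funext J
      have e6 := congrFun e5 J
      rw [← e6, ← mul_assoc, inv_mul_cancel₀ (zpow_ne_zero _ hμ), one_mul]
    rw [e1, ten_smul, e4]
    have e7 : ten (x.submatrix emb emb) (fun J => (z b₀ b₀) ^ v * (((y b₀ b₀) ^ v)⁻¹ * (ξ J : ℂ))) I =
        (z b₀ b₀) ^ v * (((y b₀ b₀) ^ v)⁻¹ * ten (x.submatrix emb emb) (fun J => (ξ J : ℂ)) I) := by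
      rw [ten_smul, ten_smul]
    rw [e7, ← hx3, mul_zpow, mul_zpow, _root_.inv_zpow]
    ring
  · refine exists_ideal ({F | ∃ p q, lab p ≠ lab q ∧ F = fun y => y p q} ∪
      {F | ∃ I : P → B', F = fun y : Matrix B B ℂ => (y b₀ b₀) ^ v.toNat * (φ I : ℂ) -
        (y b₀ b₀) ^ (-v).toNat * ten (y.submatrix emb emb) (fun J => (ξ J : ℂ)) I}) ?_ ?_
    · rintro F (⟨p, q, -, rfl⟩ | ⟨I, rfl⟩)
      · exact PolyFun.entry p q
      · refine PolyFun.sub (PolyFun.mul (PolyFun.pow (PolyFun.entry b₀ b₀) _)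
          (PolyFun.const (SubfieldClass.ratCast_mem K _)))
          (PolyFun.mul (PolyFun.pow (PolyFun.entry b₀ b₀) _) ?_)
        unfold ten
        exact PolyFun.sum _ fun J => PolyFun.mul (PolyFun.prod _ fun l => PolyFun.entry _ _)
          (PolyFun.const (ξ J).2)
    · intro y
      constructor
      · rintro ⟨h1, h2, h3⟩
        refine ⟨h1, ?_⟩
        rintro F (⟨p, q, hpq, rfl⟩ | ⟨I, rfl⟩)
        · exact h2 p q hpq
        · obtain ⟨hμ, -⟩ := b0_inv hb₀ h2 h1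
          have h4 : (y b₀ b₀) ^ v = (y b₀ b₀) ^ v.toNat / (y b₀ b₀) ^ (-v).toNat := by
            conv_lhs => rw [← Int.toNat_sub_toNat_neg v]
            rw [zpow_sub₀ hμ, zpow_natCast, zpow_natCast]
          have h5 := h3 I
          dsimp only
          rw [← h5, h4]
          have h6 : (y b₀ b₀) ^ (-v).toNat ≠ 0 := pow_ne_zero _ hμ
          field_simp
          ring
      · rintro ⟨h1, h2⟩
        have hbk : Bk lab y := fun p q hpq => h2 _ (Or.inl ⟨p, q, hpq, rfl⟩)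
        refine ⟨h1, hbk, fun I => ?_⟩
        obtain ⟨hμ, -⟩ := b0_inv hb₀ hbk h1
        have h4 : (y b₀ b₀) ^ v = (y b₀ b₀) ^ v.toNat / (y b₀ b₀) ^ (-v).toNat := by
          conv_lhs => rw [← Int.toNat_sub_toNat_neg v]
          rw [zpow_sub₀ hμ, zpow_natCast, zpow_natCast]
        have h5 := h2 _ (Or.inr ⟨I, rfl⟩)
        have h6 : (y b₀ b₀) ^ (-v).toNat ≠ 0 := pow_ne_zero _ hμ
        rw [h4, div_mul_eq_mul_div, div_eq_iff h6]
        linear_combination h5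

end block

end Pool.Agent.L0h12.HP
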