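import Pool.Agent.L0h12.HP.Abs
import Pool.Agent.L0h12.HP.Sub

/-!
# De Rham-Betti classes on tensor powers: from stability of subtorsors to invariance of classes
-/

set_option autoImplicit false

open Matrix

namespace Pool.Agent.L0h12.HP

variable {r N : ℕ} {n : Fin N → ℕ}

/-- the period matrix of `M_0 ⊕ ℚ(-1)` -/
noncomputable def withT (C₀ : Matrix (Fin r) (Fin r) ℂ) : Matrix (Fin (r + 1)) (Fin (r + 1)) ℂ :=
  (Matrix.fromBlocks C₀ 0 0 (Matrix.of fun _ _ : Fin 1 => twoPiI)).submatrix finSumFinEquiv.symm finSumFinEquiv.symm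

theorem withT_unit {C₀ : Matrix (Fin r) (Fin r) ℂ} (h : IsUnit C₀) : IsUnit (withT C₀) := by
  rw [Matrix.isUnit_iff_isUnit_det] at h ⊢
  unfold withT
  rw [Matrix.det_submatrix_equiv_self, Matrix.det_fromBlocks_zero₂₁]
  refine h.mul (isUnit_iff_ne_zero.2 ?_)
  rw [Matrix.det_fin_one]
  exact twoPiI_ne

/-- the embedding of the bases -/
def emb : Index r n → Index (r + 1) n
  | Sum.inl i => Sum.inl (finSumFinEquiv (Sum.inl i))
  | Sum.inr p => Sum.inr p

theorem emb_inj : Function.Injective (emb : Index r n → Index (r + 1) n) := by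
  rintro (x | x) (y | y) h
  · have h1 := finSumFinEquiv.injective (Sum.inl_injective h)
    rw [Sum.inl_injective h1]
  · exact absurd h (by simp [emb])
  · exact absurd h (by simp [emb])
  · rw [show x = y from Sum.inr_injective h]

/-- the place of the Tate object -/
def pl : Index (r + 1) n := Sum.inl (finSumFinEquiv (Sum.inr 0))

/-- the blocks -/
def lb : Index (r + 1) n → Option (Option (Fin N))
  | Sum.inl i => (finSumFinEquiv.symm i).elim (fun _ => none) fun _ : Fin 1 => some none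
  | Sum.inr p => some (some p.1)

theorem lb_inl (x : Fin r) : lb (n := n) (Sum.inl (finSumFinEquiv (Sum.inl x))) = none := by
  unfold lb
  dsimp only
  rw [Equiv.symm_apply_apply]
  rfl

theorem lb_pl : lb (pl : Index (r + 1) n) = some none := by
  unfold lb pl
  dsimp only
  rw [Equiv.symm_apply_apply]
  rfl

theorem lb_pl_eq (p : Index (r + 1) n) (h : lb p = lb (pl : Index (r + 1) n)) : p = pl := by
  rw [lb_pl] at h
  rcases p with i | p
  · obtain ⟨x, rfl⟩ := finSumFinEquiv.surjective i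
    rcases x with x | x
    · rw [lb_inl] at h
      exact absurd h (by simp)
    · rw [Subsingleton.elim x 0]
      rfl
  · exact absurd h (by simp [lb])

theorem lb_emb (x : Index r n) (q : Index (r + 1) n) (h : lb (emb x) = lb q) : q ∈ Set.range (emb : Index r n → _) := by
  rcases q with i | q
  · obtain ⟨y, rfl⟩ := finSumFinEquiv.surjective i
    rcases y with y | y
    · exact ⟨Sum.inl y, rfl⟩
    · exfalso
      rw [Subsingleton.elim y 0] at h
      have h1 : lb (emb x) = lb (pl : Index (r + 1) n) := h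
      rw [lb_pl] at h1
      rcases x with x | x
      · rw [show emb (n := n) (Sum.inl x : Index r n) = Sum.inl (finSumFinEquiv (Sum.inl x)) from rfl, lb_inl] at h1
        exact absurd h1 (by simp)
      · exact absurd h1 (by simp [lb, emb])
  · exact ⟨Sum.inr q, rfl⟩

theorem total_bk (C₀ : Matrix (Fin r) (Fin r) ℂ) (Z : ∀ i, Matrix (Fin (n i)) (Fin (n i)) ℂ) :
    Bk (lb : Index (r + 1) n → _) (total (withT C₀) Z) := by
  intro p q hpq
  rcases p with i | p
  · rcases q with j | q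
    · obtain ⟨x, rfl⟩ := finSumFinEquiv.surjective i
      obtain ⟨y, rfl⟩ := finSumFinEquiv.surjective j
      show withT C₀ _ _ = 0
      unfold withT
      rw [Matrix.submatrix_apply, Equiv.symm_apply_apply, Equiv.symm_apply_apply]
      rcases x with x | x
      · rcases y with y | y
        · exact absurd ((lb_inl x).trans (lb_inl y).symm) hpq
        · rfl
      · rcases y with y | y
        · rfl
        · rw [Subsingleton.elim x y] at hpq
          exact absurd rfl hpq
    · rfl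
  · rcases q with j | q
    · rfl
    · refine bd_apply_of_ne Z fun h => hpq ?_
      show some (some p.1) = some (some q.1)
      rw [h]

theorem total_emb (C₀ : Matrix (Fin r) (Fin r) ℂ) (Z : ∀ i, Matrix (Fin (n i)) (Fin (n i)) ℂ) :
    (total (withT C₀) Z).submatrix emb emb = total C₀ Z := by
  ext p q
  rw [Matrix.submatrix_apply]
  rcases p with i | p
  · rcases q with j | q
    · show withT C₀ _ _ = C₀ i j
      unfold withT
      rw [Matrix.submatrix_apply, Equiv.symm_apply_apply, Equiv.symm_apply_apply]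
      rfl
    · rfl
  · rcases q with j | q
    · rfl
    · rfl

theorem total_pl (C₀ : Matrix (Fin r) (Fin r) ℂ) (Z : ∀ i, Matrix (Fin (n i)) (Fin (n i)) ℂ) :
    total (withT C₀) Z pl pl = twoPiI := by
  show withT C₀ _ _ = twoPiI
  unfold withT
  rw [Matrix.submatrix_apply, Equiv.symm_apply_apply]
  rfl

theorem total_unit {x : Matrix (Fin r) (Fin r) ℂ} (hx : IsUnit x) {Z : ∀ i, Matrix (Fin (n i)) (Fin (n i)) ℂ}
    (hZ : ∀ i, IsUnit (Z i)) : IsUnit (total x Z) := by
  rw [isUnit_iff_exists_inv]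
  refine ⟨total x⁻¹ fun i => (Z i)⁻¹, ?_⟩
  rw [total_mul, Matrix.mul_nonsing_inv _ ((Matrix.isUnit_iff_isUnit_det _).1 hx)]
  have h1 : (fun i => Z i * (Z i)⁻¹) = fun i => (1 : Matrix (Fin (n i)) (Fin (n i)) ℂ) :=
    funext fun i => Matrix.mul_nonsing_inv _ ((Matrix.isUnit_iff_isUnit_det _).1 (hZ i))
  rw [h1]
  unfold total
  rw [show (blockDiagonal' fun i => (1 : Matrix (Fin (n i)) (Fin (n i)) ℂ)) = 1 from blockDiagonal'_one, fromBlocks_one]

/-- If all subtorsors which contain the period matrix are stable under the isometries of the forms, then the classes are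
invariant. -/
theorem invt_of_stable {K : Subfield ℂ} {C₀ : Matrix (Fin r) (Fin r) ℂ} (hC₀ : IsUnit C₀)
    {Z : ∀ i, Matrix (Fin (n i)) (Fin (n i)) ℂ} (hZ : ∀ i, IsUnit (Z i))
    {E : ∀ i, Matrix (Fin (n i)) (Fin (n i)) ℚ}
    (hstab : ∀ T : Set (Matrix (Index (r + 1) n) (Index (r + 1) n) ℂ),
      ((∀ x ∈ T, ∀ y ∈ T, ∀ z ∈ T, x * y⁻¹ * z ∈ T) ∧
        ∃ I : Set (MvPolynomial (Index (r + 1) n × Index (r + 1) n) K), ∀ x : Matrix (Index (r + 1) n) (Index (r + 1) n) ℂ,
          x ∈ T ↔ IsUnit x ∧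
            ∀ p ∈ I, MvPolynomial.eval (fun b => x b.1 b.2) (MvPolynomial.map (algebraMap K ℂ) p) = 0) →
      total (withT C₀) Z ∈ T → ∀ g : ∀ i, Matrix (Fin (n i)) (Fin (n i)) ℂ, (∀ i, (g i).det = 1 ∧
        g i * (E i).map (Rat.cast : ℚ → ℂ) * (g i)ᵀ = (E i).map (Rat.cast : ℚ → ℂ)) →
      total 1 g * total (withT C₀) Z ∈ T)
    (P : Type) [Fintype P] [DecidableEq P] (v : ℤ) (φ : (P → Index r n) → ℚ) (hφ : IsDRB K (total C₀ Z) v φ) :
    Invt E φ := by
  obtain ⟨ξ, hξ⟩ := hφ
  intro g hg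
  have h1 := hstab (classSet K lb pl emb v φ ξ) (classSet_sub lb_pl_eq emb_inj lb_emb v φ ξ)
    ⟨total_unit (withT_unit hC₀) hZ, total_bk C₀ Z, fun I => by
      rw [total_pl, total_emb]
      exact hξ I⟩ g hg
  obtain ⟨-, -, h2⟩ := h1
  rw [total_mul, one_mul, total_pl, total_emb] at h2
  have h3 : total C₀ (fun i => g i * Z i) = total 1 g * total C₀ Z := by
    rw [total_mul, one_mul]
  rw [h3, ten_mul] at h2
  have h4 : ten (total C₀ Z) (fun J => (ξ J : ℂ)) = fun I => twoPiI ^ v * (φ I : ℂ) := funext fun I => (hξ I).symm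
  rw [h4, ten_smul] at h2
  funext I
  exact (mul_left_cancel₀ (zpow_ne_zero v twoPiI_ne) (h2 I)).symm

/-- a pairing which is a de Rham-Betti class -/
theorem exists_pairing {K : Subfield ℂ} {m : ℕ} {Z : Matrix (Fin m) (Fin m) ℂ} {E : Matrix (Fin m) (Fin m) ℚ} {w : ℤ}
    (h : IsDRB K Z w fun I : Fin 2 → Fin m => E (I 0) (I 1)) :
    ∃ J : Matrix (Fin m) (Fin m) K, Z * J.map (algebraMap K ℂ) * Zᵀ = twoPiI ^ w • E.map (Rat.cast : ℚ → ℂ) := by
  obtain ⟨ξ, hξ⟩ := h
  refine ⟨Matrix.of fun a b => ξ ![a, b], ?_⟩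
  ext a b
  have h1 := hξ ![a, b]
  rw [Matrix.smul_apply, smul_eq_mul, Matrix.map_apply]
  simp only [Matrix.cons_val_zero, Matrix.cons_val_one] at h1
  rw [h1, Matrix.mul_apply]
  simp_rw [Matrix.mul_apply, Finset.sum_mul]
  rw [← Fintype.sum_prod_type']
  symm
  refine Fintype.sum_equiv (finTwoArrowEquiv (Fin m) |>.trans (Equiv.prodComm _ _)) _ _ fun J => ?_
  rw [Fin.prod_univ_two]
  have h2 : J = ![J 0, J 1] := by
    ext i
    fin_cases i <;> rfl
  show _ = Z a (J 0) * (ξ ![J 0, J 1] : ℂ) * Z b (J 1)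
  rw [← h2]
  show Z a (J 0) * Z b (J 1) * _ = _
  ring

end Pool.Agent.L0h12.HP
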